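import Pool.Agent.W2helper46.RL.Defs

set_option autoImplicit false

/-!
# Characters of the torus and Zariski closed sets
-/

namespace Pool.Agent.W2helper46.RL

open MvPolynomial

variable {n : ℕ}

/-- the monomial character of the torus, with values in the field -/
noncomputable def chi (m : Fin n → ℕ) : Torus n →* Qb where
  toFun x := ∏ i, (x i : Qb) ^ m i
  map_one' := by simp
  map_mul' x y := by
    rw [← Finset.prod_mul_distrib]
    exact Finset.prod_congr rfl fun i _ => by simp [mul_pow]

lemma chi_apply (m : Fin n → ℕ) (x : Torus n) : chi m x = ∏ i, (x i : Qb) ^ m i := rfl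

/-- the rational number `2` as a unit -/
noncomputable def two : Qbˣ := Units.mk0 2 (by norm_num)

lemma two_val : ((two : Qbˣ) : Qb) = 2 := rfl

lemma two_pow_inj {a b : ℕ} (h : (2 : Qb) ^ a = 2 ^ b) : a = b := by
  have h' : ((2 ^ a : ℕ) : Qb) = ((2 ^ b : ℕ) : Qb) := by push_cast; exact h
  exact Nat.pow_right_injective le_rfl (Nat.cast_injective h')

lemma chi_single (m : Fin n → ℕ) (i : Fin n) (u : Qbˣ) :
    chi m (Pi.mulSingle i u) = (u : Qb) ^ m i := by
  rw [chi_apply, Finset.prod_eq_single i]
  · simp
  · intro j _ hj
    simp [Pi.mulSingle_eq_of_ne hj]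
  · simp

lemma chi_injective : Function.Injective (chi (n := n)) := by
  intro a b h
  funext i
  have h1 := DFunLike.congr_fun h (Pi.mulSingle i two)
  rw [chi_single, chi_single, two_val] at h1
  exact two_pow_inj h1

lemma eval_eq_sum (f : MvPolynomial (Fin n) Qb) (x : Torus n) :
    eval (fun i => (x i : Qb)) f = ∑ m ∈ f.support, f.coeff m * chi (fun i => m i) x := by
  rw [eval_eq']
  rfl

/-- a polynomial which vanishes on the torus is zero -/
lemma eq_zero_of_forall (f : MvPolynomial (Fin n) Qb)
    (h : ∀ x : Torus n, eval (fun i => (x i : Qb)) f = 0) : f = 0 := by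
  have hli := linearIndependent_monoidHom (Torus n) Qb
  have hinj : Function.Injective (fun m : Fin n →₀ ℕ => chi (fun i => m i)) := by
    intro a b hab
    have := chi_injective hab
    ext i
    exact congrFun this i
  have hli2 := hli.comp _ hinj
  rw [linearIndependent_iff'] at hli2
  have h1 : ∑ m ∈ f.support, f.coeff m • (fun x : Torus n => chi (fun i => m i) x) = 0 := by
    funext x
    have := h x
    rw [eval_eq_sum] at this
    simpa using this
  ext m
  by_cases hm : m ∈ f.support
  · have := hli2 f.support (fun m => f.coeff m) h1 m hm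
    simpa using this
  · simpa using hm

/-- **Dedekind.** A proper Zariski closed subgroup is contained in the kernel of a character. -/
lemma exists_character (B : Subgroup (Torus n)) (hB : IsZClosed (B : Set (Torus n)))
    (hne : (B : Set (Torus n)) ≠ Set.univ) :
    ∃ v : Fin n → ℤ, v ≠ 0 ∧ ∀ b ∈ B, ∏ i, (b i) ^ v i = 1 := by
  obtain ⟨S, hS⟩ := hB
  obtain ⟨x, hx⟩ : ∃ x : Torus n, x ∉ (B : Set (Torus n)) := by
    by_contra hcon
    push Not at hcon
    exact hne (Set.eq_univ_of_forall hcon)
  have hx' : ∃ f ∈ S, eval (fun i => (x i : Qb)) f ≠ 0 := by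
    by_contra hcon
    push Not at hcon
    rw [hS] at hx
    exact hx hcon
  obtain ⟨f, hf, hfx⟩ := hx'
  have hfB : ∀ b ∈ B, eval (fun i => (b i : Qb)) f = 0 := by
    intro b hb
    have : b ∈ zeros S := by
      rw [← hS]
      exact hb
    exact this f hf
  by_contra hcon
  push Not at hcon
  -- the characters of `B` given by the monomials of `f` are distinct
  have hli := linearIndependent_monoidHom B Qb
  let c : (Fin n →₀ ℕ) → (B →* Qb) := fun m => (chi (fun i => m i)).comp B.subtype
  have hinj : Function.Injective c := by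
    intro a b hab
    by_contra hne'
    have hv : (fun i => (a i : ℤ) - (b i : ℤ)) ≠ 0 := by
      intro h0
      apply hne'
      ext i
      have := congrFun h0 i
      simp only [Pi.zero_apply] at this
      omega
    obtain ⟨y, hy, hy1⟩ := hcon _ hv
    apply hy1
    have h1 := DFunLike.congr_fun hab (⟨y, hy⟩ : B)
    have h2 : ∏ i, (y i : Qb) ^ (a i) = ∏ i, (y i : Qb) ^ (b i) := h1
    have h3 : ∏ i, (y i) ^ (a i) = ∏ i, (y i) ^ (b i) := by
      apply Units.ext
      push_cast
      exact h2
    simp only [zpow_sub, zpow_natCast]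
    rw [Finset.prod_mul_distrib, h3, ← Finset.prod_mul_distrib]
    simp
  have hli2 := hli.comp _ hinj
  rw [linearIndependent_iff'] at hli2
  have h1 : ∑ m ∈ f.support, f.coeff m • (fun y : B => c m y) = 0 := by
    funext y
    have := hfB y.1 y.2
    rw [eval_eq_sum] at this
    simpa [c] using this
  have h0 : f = 0 := by
    ext m
    by_cases hm : m ∈ f.support
    · have := hli2 f.support (fun m => f.coeff m) h1 m hm
      simpa using this
    · simpa using hm
  exact hfx (by rw [h0]; simp)

end Pool.Agent.W2helper46.RL
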