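import Mathlib

set_option autoImplicit false

/-!
# Lehmer groups in tori (Rémond): the definitions

`Qb` is an algebraic closure of `ℚ`; the points of the torus `G = G_m^n` over `Qb` are the functions
`Fin n → Qbˣ`. The compactification is `(ℙ¹)^n` with the line bundle `O(1, ..., 1)`.
-/

namespace Pool.Agent.W2helper46.RL

open Filter Topology

/-- the field of algebraic numbers -/
abbrev Qb : Type := AlgebraicClosure ℚ

/-- the points of `G_m^n` over the algebraic numbers -/
abbrev Torus (n : ℕ) : Type := Fin n → Qbˣ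

/-- the canonical height of a point of `G_m^n`: the sum of the absolute logarithmic Weil heights of
the coordinates -/
noncomputable def hG {n : ℕ} (x : Torus n) : ℝ := ∑ i, NumberField.absLogHeight₁ (x i : Qb)

/-- the set of the common zeros in the torus of a set of polynomials -/
def zeros {n : ℕ} (S : Set (MvPolynomial (Fin n) Qb)) : Set (Torus n) :=
  {x | ∀ f ∈ S, MvPolynomial.eval (fun i => (x i : Qb)) f = 0}

/-- Zariski closed subsets of the torus -/
def IsZClosed {n : ℕ} (Z : Set (Torus n)) : Prop := ∃ S, Z = zeros S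

/-- Zariski closed subsets of the torus which are defined over the field `L` -/
def IsDefinedOver {n : ℕ} (L : IntermediateField ℚ Qb) (Z : Set (Torus n)) : Prop :=
  ∃ S : Set (MvPolynomial (Fin n) Qb), (∀ f ∈ S, ∀ m, f.coeff m ∈ L) ∧ Z = zeros S

/-- the subvarieties of the torus: the irreducible Zariski closed subsets -/
def IsSubvariety {n : ℕ} (V : Set (Torus n)) : Prop :=
  IsZClosed V ∧ V.Nonempty ∧
    ∀ A B : Set (Torus n), IsZClosed A → IsZClosed B → V ⊆ A ∪ B → V ⊆ A ∨ V ⊆ B

/-- `Γ` has finite rank: there are finitely many elements of `Γ` such that a positive power of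
every element of `Γ` is in the group generated by them -/
def HasFiniteRank {n : ℕ} (Γ : Subgroup (Torus n)) : Prop :=
  ∃ T : Finset (Torus n), (∀ t ∈ T, t ∈ Γ) ∧
    ∀ g ∈ Γ, ∃ m : ℕ, 0 < m ∧ g ^ m ∈ Subgroup.closure (T : Set (Torus n))

/-- `x` is in the saturation of `Γ`: a positive power of `x` is in `Γ` -/
def InSat {n : ℕ} (Γ : Subgroup (Torus n)) (x : Torus n) : Prop := ∃ m : ℕ, 0 < m ∧ x ^ m ∈ Γ

/-- `K(Γ)`, the field generated over `K` by the coordinates of the points of `Γ` -/
noncomputable def coordField {n : ℕ} (K : IntermediateField ℚ Qb) (Γ : Subgroup (Torus n)) :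
    IntermediateField ℚ Qb :=
  K ⊔ IntermediateField.adjoin ℚ {y | ∃ g ∈ Γ, ∃ i, y = (g i : Qb)}

/-- the `Γ`-torsion subvarieties: the translates of the connected algebraic subgroups by points in
the saturation of `Γ`. (A closed subgroup is connected if and only if it is irreducible.) -/
def IsTorsionSubvariety {n : ℕ} (Γ : Subgroup (Torus n)) (W : Set (Torus n)) : Prop :=
  ∃ B : Subgroup (Torus n), IsSubvariety (B : Set (Torus n)) ∧
    ∃ g, InSat Γ g ∧ W = {x | ∃ b ∈ B, x = b * g}

/-- `V` is `Γ`-transverse: no proper `Γ`-torsion subvariety contains it -/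
def IsTransverse {n : ℕ} (Γ : Subgroup (Torus n)) (V : Set (Torus n)) : Prop :=
  ∀ W, IsTorsionSubvariety Γ W → W ≠ Set.univ → ¬ V ⊆ W

/-- the essential minimum of `V`: the infimum of the `θ` such that the set of the points of `V` of
height at most `θ` is Zariski dense in `V` -/
noncomputable def essMin {n : ℕ} (V : Set (Torus n)) : ℝ :=
  sInf {θ : ℝ | ∀ A : Set (Torus n), IsZClosed A → {x | x ∈ V ∧ hG x ≤ θ} ⊆ A → V ⊆ A}

/-- the space of the functions on `Z` which are the restrictions of the polynomials of degree at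
most `k` in each variable, that is, of the sections of `O(k, ..., k)` -/
noncomputable def restr {n : ℕ} (Z : Set (Torus n)) (k : ℕ) : Submodule Qb (Z → Qb) :=
  Submodule.span Qb {F | ∃ m : Fin n → ℕ, (∀ i, m i ≤ k) ∧
    F = fun x : Z => ∏ i, (x.1 i : Qb) ^ m i}

/-- the Hilbert function of `Z` with respect to `O(1, ..., 1)` -/
noncomputable def hilb {n : ℕ} (Z : Set (Torus n)) (k : ℕ) : ℕ := Module.finrank Qb (restr Z k)

/-- `Z` has dimension `d` and degree `δ` with respect to `O(1, ..., 1)`: the Hilbert function is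
asymptotically equal to `δ k ^ d / d!`, and `δ > 0` -/
def HasDegree {n : ℕ} (Z : Set (Torus n)) (d : ℕ) (δ : ℝ) : Prop :=
  0 < δ ∧ Tendsto (fun k : ℕ => (d.factorial : ℝ) * hilb Z k / (k : ℝ) ^ d) atTop (𝓝 δ)

/-- `W` is an irreducible component of `Z` -/
def IsComponent {n : ℕ} (W Z : Set (Torus n)) : Prop :=
  IsSubvariety W ∧ W ⊆ Z ∧ ∀ W', IsSubvariety W' → W ⊆ W' → W' ⊆ Z → W' = W

/-- the Zariski closed set `Z` is equidimensional of dimension `d` -/
def IsEquidim {n : ℕ} (Z : Set (Torus n)) (d : ℕ) : Prop :=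
  IsZClosed Z ∧ ∀ W, IsComponent W Z → ∃ δ, HasDegree W d δ

/-- the obstruction index of `V` relative to `L`: the least value of `deg (Z) ^ (1 / (n - dim Z))`
for the equidimensional Zariski closed sets `Z`, different from the torus, which are defined over
`L` and contain `V` -/
noncomputable def obstructionIndex {n : ℕ} (L : IntermediateField ℚ Qb) (V : Set (Torus n)) : ℝ :=
  sInf {w : ℝ | ∃ (Z : Set (Torus n)) (d : ℕ) (δ : ℝ), Z ≠ Set.univ ∧ IsDefinedOver L Z ∧ V ⊆ Z ∧
    IsEquidim Z d ∧ d < n ∧ HasDegree Z d δ ∧ w = δ ^ ((1 : ℝ) / ((n : ℝ) - (d : ℝ)))}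

/-- `c` is a constant for which Rémond's inequality holds: `ω_{K(Γ)}(V) μ_ess(V) ≥ c` for all
`Γ`-transverse subvarieties `V`, different from the torus -/
def LehmerBound {n : ℕ} (K : IntermediateField ℚ Qb) (Γ : Subgroup (Torus n)) (c : ℝ) : Prop :=
  ∀ V : Set (Torus n), IsSubvariety V → V ≠ Set.univ → IsTransverse Γ V →
    c ≤ obstructionIndex (coordField K Γ) V * essMin V

/-- `Γ` is a Lehmer group over `K` -/
def IsLehmer {n : ℕ} (K : IntermediateField ℚ Qb) (Γ : Subgroup (Torus n)) : Prop :=
  ∃ c : ℝ, 0 < c ∧ LehmerBound K Γ c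

end Pool.Agent.W2helper46.RL
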