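import Pool.Agent.W2helper46.RL.Level

set_option autoImplicit false

/-!
# The Hilbert function and the degree of the hypersurfaces `χ ∈ U`
-/

namespace Pool.Agent.W2helper46.RL

open Filter Topology

variable {n : ℕ}

/-- the exponent modulo `v` -/
def cls (v w m : Fin n → ℤ) : Fin n → ℤ := m - (∑ i, w i * m i) • v

lemma mono_retr (v w : Fin n → ℤ) (U : Finset Qbˣ) (u : Qbˣ) (m : Fin n → ℤ) (t : Torus n)
    (h : retr v w u t ∈ level v U) :
    mono v U m ⟨_, h⟩ = ((u ^ (∑ i, w i * m i) : Qbˣ) : Qb) * monF (cls v w m) t := by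
  rw [mono, mon_retr, monF_apply, cls]
  push_cast
  ring

/-- the vanishing of the sums over the classes modulo `v` -/
lemma class_sum (v w : Fin n → ℤ) (hvw : ∑ i, w i * v i = 1) (U : Finset Qbˣ)
    (E : Finset (Fin n → ℤ)) (g : (Fin n → ℤ) → Qb)
    (hg : ∑ m ∈ E, g m • mono v U m = 0) (u : Qbˣ) (hu : u ∈ U) (a : Fin n → ℤ) :
    ∑ m ∈ E with cls v w m = a, g m * ((u ^ (∑ i, w i * m i) : Qbˣ) : Qb) = 0 := by
  classical
  set f : (Fin n → ℤ) → Qb := fun m => g m * ((u ^ (∑ i, w i * m i) : Qbˣ) : Qb) with hf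
  have h1 : ∑ m ∈ E, f m • (⇑(monF (cls v w m)) : Torus n → Qb) = 0 := by
    funext t
    have hmem : retr v w u t ∈ level v U := by
      show mon v (retr v w u t) ∈ U
      rw [mon_retr_self v w hvw]
      exact hu
    have h2 := congrFun hg ⟨_, hmem⟩
    rw [Finset.sum_apply] at h2 ⊢
    refine Eq.trans ?_ h2
    apply Finset.sum_congr rfl
    intro m _
    rw [Pi.smul_apply, Pi.smul_apply, mono_retr, smul_eq_mul, smul_eq_mul, hf]
    ring
  have h3 : ∑ b ∈ E.image (cls v w), (∑ m ∈ E with cls v w m = b, f m) •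
      (⇑(monF b) : Torus n → Qb) = 0 := by
    rw [← h1, ← Finset.sum_fiberwise_of_maps_to (g := cls v w) (t := E.image (cls v w))
      (fun m hm => Finset.mem_image_of_mem _ hm)]
    apply Finset.sum_congr rfl
    intro b _
    rw [Finset.sum_smul]
    apply Finset.sum_congr rfl
    intro m hm
    rw [(Finset.mem_filter.mp hm).2]
  have h4 := linearIndependent_iff'.mp (monF_linearIndependent (n := n)) _ _ h3
  by_cases ha : a ∈ E.image (cls v w)
  · exact h4 a ha
  · rw [Finset.filter_eq_empty_iff.mpr]
    · simp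
    · intro m hm h
      exact ha (Finset.mem_image.mpr ⟨m, hm, h⟩)

lemma edge_independent (v w : Fin n → ℤ) (hvw : ∑ i, w i * v i = 1) (U : Finset Qbˣ) (k : ℕ) :
    LinearIndependent Qb (fun m : edge v U.card k => mono v U m.1) := by
  classical
  have : LinearIndepOn Qb (mono v U) (edge v U.card k : Set (Fin n → ℤ)) := by
    rw [linearIndepOn_finset_iff]
    intro g hg m0 hm0
    have hcs := class_sum v w hvw U _ g hg
    set C := (edge v U.card k).filter (fun m => cls v w m = cls v w m0) with hC
    have hm0C : m0 ∈ C := by rw [hC, Finset.mem_filter]; exact ⟨hm0, rfl⟩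
    set e : (Fin n → ℤ) → ℤ := fun m => ∑ i, w i * m i with he
    obtain ⟨m1, hm1C, hmin⟩ := Finset.exists_min_image C e ⟨m0, hm0C⟩
    -- the elements of the class
    have hform : ∀ m ∈ C, ∀ i, m i = m1 i + (e m - e m1) * v i := by
      intro m hm i
      have h1 := congrFun ((Finset.mem_filter.mp hm).2) i
      have h2 := congrFun ((Finset.mem_filter.mp hm1C).2) i
      simp only [cls, Pi.sub_apply, Pi.smul_apply, smul_eq_mul] at h1 h2
      simp only [he]
      linarith
    have hlt : ∀ m ∈ C, e m - e m1 < U.card := by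
      intro m hm
      by_contra hcon
      push Not at hcon
      have hE := mem_edge.mp (Finset.mem_filter.mp hm).1
      have hE1 := mem_edge.mp (Finset.mem_filter.mp hm1C).1
      apply hE.2
      rw [mem_box]
      intro i
      have a1 := mem_box.mp hE.1 i
      have a2 := mem_box.mp hE1.1 i
      have a3 := hform m hm i
      simp only [Pi.sub_apply, Pi.smul_apply, smul_eq_mul]
      have a4 : (0 : ℤ) ≤ (U.card : ℤ) := Int.natCast_nonneg _
      rcases le_total 0 (v i) with h | h
      · have a5 := mul_le_mul_of_nonneg_right hcon h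
        have a6 := mul_nonneg a4 h
        constructor <;> linarith
      · have a5 := mul_le_mul_of_nonpos_right hcon h
        have a6 := mul_nonpos_of_nonneg_of_nonpos a4 h
        constructor <;> linarith
    have hle : ∀ m ∈ C, 0 ≤ e m - e m1 := by
      intro m hm
      have := hmin m hm
      omega
    -- the polynomial
    set Q : Polynomial Qb := ∑ m ∈ C, Polynomial.C (g m) * Polynomial.X ^ (e m - e m1).toNat
      with hQ
    have hdeg : Q.degree < ((U.image Units.val).card : ℕ) := by
      have hc : (U.image Units.val).card = U.card :=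
        Finset.card_image_of_injective _ Units.val_injective
      rw [hc, ← Polynomial.mem_degreeLT]
      apply Submodule.sum_mem
      intro m hm
      rw [Polynomial.mem_degreeLT]
      refine (Polynomial.degree_C_mul_X_pow_le _ _).trans_lt ?_
      have h1 := hlt m hm
      have h2 := hle m hm
      exact_mod_cast (by omega : (e m - e m1).toNat < U.card)
    have heval : ∀ y ∈ U.image Units.val, Q.eval y = 0 := by
      intro y hy
      obtain ⟨u, hu, rfl⟩ := Finset.mem_image.mp hy
      have h1 := hcs u hu (cls v w m0)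
      rw [← hC] at h1
      have h2 : Q.eval (u : Qb) = ((u ^ (-(e m1)) : Qbˣ) : Qb) *
          ∑ m ∈ C, g m * ((u ^ (∑ i, w i * m i) : Qbˣ) : Qb) := by
        rw [hQ, Polynomial.eval_finsetSum, Finset.mul_sum]
        apply Finset.sum_congr rfl
        intro m hm
        have h3 : (u : Qb) ^ (e m - e m1).toNat = ((u ^ (e m - e m1) : Qbˣ) : Qb) := by
          have h4 : u ^ (e m - e m1) = u ^ (e m - e m1).toNat := by
            rw [← zpow_natCast, Int.toNat_of_nonneg (hle m hm)]
          rw [h4]
          push_cast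
          rfl
        rw [Polynomial.eval_mul, Polynomial.eval_C, Polynomial.eval_pow, Polynomial.eval_X, h3,
          sub_eq_add_neg, zpow_add]
        simp only [he]
        push_cast
        ring
      rw [h2, h1, mul_zero]
    have hQ0 : Q = 0 := Polynomial.eq_zero_of_degree_lt_of_eval_finset_eq_zero _ hdeg heval
    have hco := congrArg (fun R => Polynomial.coeff R (e m0 - e m1).toNat) hQ0
    simp only [hQ, Polynomial.finsetSum_coeff, Polynomial.coeff_C_mul, Polynomial.coeff_X_pow,
      Polynomial.coeff_zero] at hco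
    rw [Finset.sum_eq_single m0] at hco
    · simpa using hco
    · intro m hm hne
      rw [if_neg, mul_zero]
      intro h
      apply hne
      have h1 := hle m hm
      have h2 := hle m0 hm0C
      have h3 : e m - e m1 = e m0 - e m1 := by omega
      funext i
      rw [hform m hm i, hform m0 hm0C i, h3]
    · intro h
      exact absurd hm0C h
  exact this

lemma hilb_level (v w : Fin n → ℤ) (hvw : ∑ i, w i * v i = 1) (U : Finset Qbˣ) (k : ℕ) :
    hilb (level v U) k = (edge v U.card k).card := by
  have hv : v ≠ 0 := by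
    rintro rfl
    simp at hvw
  rw [hilb, restr_level v U hv, finrank_span_eq_card (edge_independent v w hvw U k),
    Fintype.card_coe]

lemma tendsto_prod (s : Finset (Fin n)) (b : Fin n → ℝ) :
    Tendsto (fun k : ℕ => ∏ i ∈ s, (1 + b i / (k : ℝ))) atTop (𝓝 1) ∧
    Tendsto (fun k : ℕ => (k : ℝ) * (∏ i ∈ s, (1 + b i / (k : ℝ)) - 1)) atTop
      (𝓝 (∑ i ∈ s, b i)) := by
  classical
  induction s using Finset.induction_on with
  | empty => simp
  | insert i s hi ih =>
    obtain ⟨ih1, ih2⟩ := ih
    have h0 : Tendsto (fun k : ℕ => (1 + b i / (k : ℝ))) atTop (𝓝 1) := by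
      have := (tendsto_const_div_atTop_nhds_zero_nat (b i)).const_add 1
      simpa using this
    constructor
    · have := h0.mul ih1
      simp only [Finset.prod_insert hi]
      simpa using this
    · have h1 : Tendsto (fun k : ℕ => (k : ℝ) * (∏ i ∈ s, (1 + b i / (k : ℝ)) - 1) +
          b i * ∏ i ∈ s, (1 + b i / (k : ℝ))) atTop (𝓝 (∑ i ∈ s, b i + b i * 1)) :=
        ih2.add (ih1.const_mul (b i))
      rw [Finset.sum_insert hi, add_comm (b i), ← mul_one (b i)]
      refine (h1.congr' ?_).trans (by simp)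
      filter_upwards [eventually_gt_atTop 0] with k hk
      have hk' : (k : ℝ) ≠ 0 := by positivity
      rw [Finset.prod_insert hi]
      field_simp
      ring

lemma hasDegree_level (v w : Fin n → ℤ) (hvw : ∑ i, w i * v i = 1) (U : Finset Qbˣ)
    (hU : U.Nonempty) :
    HasDegree (level v U) (n - 1) ((n - 1).factorial * (U.card * ∑ i, |(v i : ℝ)|)) := by
  have hv : v ≠ 0 := by
    rintro rfl
    simp at hvw
  obtain ⟨j, hj⟩ := Function.ne_iff.mp hv
  have hn : 0 < n := Fin.pos j
  have hj' : (v j : ℝ) ≠ 0 := by exact_mod_cast hj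
  have hpos : 0 < ∑ i, |(v i : ℝ)| := by
    apply Finset.sum_pos'
    · intro i _
      exact abs_nonneg _
    · exact ⟨j, Finset.mem_univ j, abs_pos.mpr hj'⟩
  have hUc : (0 : ℝ) < U.card := by exact_mod_cast Finset.card_pos.mpr hU
  refine ⟨by positivity, ?_⟩
  have h1 := (tendsto_prod (Finset.univ : Finset (Fin n)) (fun _ => (1 : ℝ))).2
  have h2 := (tendsto_prod (Finset.univ : Finset (Fin n))
    (fun i => 1 - (U.card : ℝ) * |(v i : ℝ)|)).2
  have h3 := (h1.sub h2).const_mul (((n - 1).factorial : ℝ))
  have h4 : ∑ _i : Fin n, (1 : ℝ) - ∑ i : Fin n, (1 - (U.card : ℝ) * |(v i : ℝ)|) =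
      U.card * ∑ i, |(v i : ℝ)| := by
    rw [Finset.sum_sub_distrib, Finset.mul_sum]
    ring
  rw [h4] at h3
  refine h3.congr' ?_
  -- for large `k`
  have hev : ∀ᶠ k : ℕ in atTop, (U.card : ℤ) * ∑ i, |v i| ≤ k := by
    filter_upwards [eventually_ge_atTop ((U.card : ℤ) * ∑ i, |v i|).toNat] with k hk
    omega
  filter_upwards [eventually_gt_atTop 0, hev] with k hk hk2
  have hk' : (k : ℝ) ≠ 0 := by positivity
  have hbound : ∀ i, (U.card : ℤ) * |v i| ≤ k := by
    intro i
    refine le_trans ?_ hk2
    apply mul_le_mul_of_nonneg_left _ (by positivity)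
    exact Finset.single_le_sum (fun i _ => abs_nonneg (v i)) (Finset.mem_univ i)
  rw [hilb_level v w hvw, card_edge v U.card k hbound]
  have h5 : ∏ i : Fin n, (1 + (1 - (U.card : ℝ) * |(v i : ℝ)|) / (k : ℝ)) =
      (∏ i, ((k : ℝ) + 1 - U.card * |(v i : ℝ)|)) / (k : ℝ) ^ n := by
    have : (k : ℝ) ^ n = ∏ _i : Fin n, (k : ℝ) := by simp
    rw [this, ← Finset.prod_div_distrib]
    apply Finset.prod_congr rfl
    intro i _
    field_simp
    ring
  have h6 : ∏ _i : Fin n, (1 + 1 / (k : ℝ)) = ((k : ℝ) + 1) ^ n / (k : ℝ) ^ n := by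
    rw [Finset.prod_const, Finset.card_univ, Fintype.card_fin, ← div_pow]
    congr 1
    field_simp
  have h7 : (k : ℝ) ^ n = k * (k : ℝ) ^ (n - 1) := by
    rw [← pow_succ']
    congr 1
    omega
  rw [h5, h6, h7]
  field_simp
  ring

lemma level_equidim (v w : Fin n → ℤ) (hvw : ∑ i, w i * v i = 1) (U : Finset Qbˣ) :
    IsEquidim (level v U) (n - 1) := by
  refine ⟨level_closed v U, ?_⟩
  rintro W ⟨hW, hWZ, hmax⟩
  obtain ⟨u, hu, hWu⟩ := exists_level v U W hW hWZ
  have hsub : level v {u} ⊆ level v U := by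
    intro x hx
    have : mon v x = u := by simpa [level] using hx
    show mon v x ∈ U
    rw [this]
    exact hu
  have := hmax _ (level_singleton_irreducible v w hvw u) hWu hsub
  rw [← this]
  exact ⟨_, hasDegree_level v w hvw {u} (Finset.singleton_nonempty u)⟩

lemma level_ne_univ (v w : Fin n → ℤ) (hvw : ∑ i, w i * v i = 1) (U : Finset Qbˣ) :
    level v U ≠ Set.univ := by
  classical
  intro h
  have key : ∀ u : Qbˣ, u ∈ U := by
    intro u
    have h1 : retr v w u 1 ∈ level v U := by rw [h]; trivial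
    have h2 : mon v (retr v w u 1) ∈ U := h1
    rwa [mon_retr_self v w hvw] at h2
  have hfin : Finite Qbˣ := Finite.of_injective (fun u : Qbˣ => (⟨u, key u⟩ : U))
    (fun a b hab => by simpa using hab)
  have hinj : Function.Injective (fun k : ℕ => two ^ (k : ℤ)) := fun a b hab => by
    exact_mod_cast two_zpow_inj hab
  exact not_injective_infinite_finite _ hinj

/-- the obstruction index of a subvariety which is contained in the hypersurface `χ ∈ U` -/
lemma obstructionIndex_le (L : IntermediateField ℚ Qb) (v w : Fin n → ℤ)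
    (hvw : ∑ i, w i * v i = 1) (U : Finset Qbˣ) (hU : U.Nonempty)
    (hL : IsDefinedOver L (level v U)) (V : Set (Torus n)) (hV : V ⊆ level v U) :
    obstructionIndex L V ≤ (n - 1).factorial * (U.card * ∑ i, |(v i : ℝ)|) := by
  have hn : 0 < n := by
    rcases Nat.eq_zero_or_pos n with h | h
    · subst h
      simp at hvw
    · exact h
  apply csInf_le
  · refine ⟨0, ?_⟩
    rintro w ⟨Z, d, δ, _, _, _, _, _, hδ, rfl⟩
    exact Real.rpow_nonneg hδ.1.le _
  · refine ⟨level v U, n - 1, _, level_ne_univ v w hvw U, hL, hV,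
      level_equidim v w hvw U, by omega, hasDegree_level v w hvw U hU, ?_⟩
    have : (n : ℝ) - ((n - 1 : ℕ) : ℝ) = 1 := by
      rw [Nat.cast_sub (by omega)]
      push_cast
      ring
    rw [this, div_one, Real.rpow_one]

lemma obstructionIndex_nonneg (L : IntermediateField ℚ Qb) (V : Set (Torus n)) :
    0 ≤ obstructionIndex L V := by
  apply Real.sInf_nonneg
  rintro w ⟨Z, d, δ, _, _, _, _, _, hδ, rfl⟩
  exact Real.rpow_nonneg hδ.1.le _

end Pool.Agent.W2helper46.RL
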