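import Pool.Agent.W2helper46.RL.Ineq

set_option autoImplicit false

/-!
# Saturated groups, and the counterexample
-/

namespace Pool.Agent.W2helper46.RL

open Filter Topology

variable {n : ℕ}

/-- every nonzero vector of exponents is a positive multiple of a primitive vector -/
lemma exists_primitive (v : Fin n → ℤ) (hv : v ≠ 0) :
    ∃ (d : ℕ) (v' w : Fin n → ℤ), 0 < d ∧ v = (d : ℤ) • v' ∧ ∑ i, w i * v' i = 1 := by
  obtain ⟨g, hg⟩ := IsPrincipalIdealRing.principal (Ideal.span (Set.range v))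
  have hmem : ∀ i, g ∣ v i := by
    intro i
    have h1 : v i ∈ Ideal.span (Set.range v) := Ideal.subset_span ⟨i, rfl⟩
    rw [hg] at h1
    exact Ideal.mem_span_singleton.mp h1
  have hgm : g ∈ Ideal.span (Set.range v) := by
    rw [hg]
    exact Ideal.mem_span_singleton_self g
  obtain ⟨w, hw⟩ := Ideal.mem_span_range_iff_exists_fun.mp hgm
  choose v' hv' using hmem
  have hg0 : g ≠ 0 := by
    rintro rfl
    apply hv
    funext i
    rw [hv' i, zero_mul]
    rfl
  have hone : ∑ i, w i * v' i = 1 := by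
    have h1 : g * ∑ i, w i * v' i = g * 1 := by
      rw [mul_one, Finset.mul_sum]
      conv_rhs => rw [← hw]
      apply Finset.sum_congr rfl
      intro i _
      rw [hv' i]
      ring
    exact mul_left_cancel₀ hg0 h1
  obtain ⟨d, hd | hd⟩ := g.eq_nat_or_neg
  · refine ⟨d, v', w, by omega, ?_, hone⟩
    funext i
    rw [hv' i, hd]
    rfl
  · refine ⟨d, -v', -w, by omega, ?_, ?_⟩
    · funext i
      rw [hv' i, hd]
      simp
    · simpa using hone

/-- **The main inequality.** -/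
theorem main_ineq (K : IntermediateField ℚ Qb) (Γ : Subgroup (Torus n))
    (hΓ : HasFiniteRank Γ) (c : ℝ) (hc : LehmerBound K Γ c) (v : Fin n → ℤ) (hv : v ≠ 0)
    (u : Qbˣ) (hu : ∀ m : ℕ, 0 < m → ∀ γ ∈ Γ, u ^ m ≠ mon v γ) :
    c ≤ n.factorial * (minpoly (coordField K Γ) (u : Qb)).natDegree *
      NumberField.absLogHeight₁ (u : Qb) := by
  obtain ⟨d, v', w, hd, rfl, hw⟩ := exists_primitive v hv
  apply main_primitive K Γ hΓ c hc v' w hw u
  intro m hm γ hγ h
  apply hu (m * d) (Nat.mul_pos hm hd) γ hγ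
  rw [mon_smul, pow_mul, h, zpow_natCast]

/-- `Γ` is saturated -/
def IsSaturated (Γ : Subgroup (Torus n)) : Prop := ∀ x : Torus n, InSat Γ x → x ∈ Γ

/-- the group generated by all coordinates of all points of `Γ` -/
noncomputable def coordGroup (Γ : Subgroup (Torus n)) : Subgroup Qbˣ :=
  Subgroup.closure {a | ∃ g ∈ Γ, ∃ i, a = g i}

/-- the group of the points with all coordinates in `A` -/
noncomputable def powerGroup (n : ℕ) (A : Subgroup Qbˣ) : Subgroup (Torus n) where
  carrier := {x | ∀ i, x i ∈ A}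
  mul_mem' hx hy i := A.mul_mem (hx i) (hy i)
  one_mem' _ := A.one_mem
  inv_mem' hx i := A.inv_mem (hx i)

lemma mem_powerGroup {A : Subgroup Qbˣ} {x : Torus n} : x ∈ powerGroup n A ↔ ∀ i, x i ∈ A :=
  Iff.rfl

lemma natDegree_minpoly_of_mem (L : IntermediateField ℚ Qb) (x : Qb) (hx : x ∈ L) :
    (minpoly L x).natDegree = 1 := by
  have h : x = algebraMap L Qb ⟨x, hx⟩ := rfl
  rw [h]
  exact (minpoly.natDegree_eq_one_iff).mpr ⟨_, rfl⟩

lemma coord_mem (K : IntermediateField ℚ Qb) (Γ : Subgroup (Torus n)) (g : Torus n) (hg : g ∈ Γ)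
    (i : Fin n) : (g i : Qb) ∈ coordField K Γ := by
  have h : (g i : Qb) ∈ IntermediateField.adjoin ℚ {y | ∃ g ∈ Γ, ∃ i, y = (g i : Qb)} :=
    IntermediateField.subset_adjoin _ _ ⟨g, hg, i, rfl⟩
  exact (le_sup_right : _ ≤ coordField K Γ) h

lemma exists_torus_root (x : Torus n) (m : ℕ) (hm : 0 < m) : ∃ y : Torus n, y ^ m = x := by
  choose y hy using fun i => exists_root (x i) m hm
  exact ⟨y, funext hy⟩

/-- a root of unity is a value of the character at a torsion point -/
lemma exists_torsion (v : Fin n → ℤ) (hv : v ≠ 0) (ζ : Qbˣ) (m : ℕ) (hm : 0 < m)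
    (hζ : ζ ^ m = 1) : ∃ τ : Torus n, ∃ N : ℕ, 0 < N ∧ τ ^ N = 1 ∧ mon v τ = ζ := by
  obtain ⟨j, hj⟩ := Function.ne_iff.mp hv
  have hj' : v j ≠ 0 := hj
  obtain ⟨η, hη⟩ := exists_zroot ζ (v j) hj'
  refine ⟨Pi.mulSingle j η, m * (v j).natAbs, Nat.mul_pos hm (Int.natAbs_pos.mpr hj'), ?_, ?_⟩
  · have h1 : η ^ (m * (v j).natAbs) = 1 := by
      have h2 : η ^ ((v j).natAbs : ℤ) = ζ ∨ η ^ ((v j).natAbs : ℤ) = ζ⁻¹ := by
        rcases Int.natAbs_eq (v j) with h | h
        · left
          rw [← h, hη]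
        · right
          rw [← hη, ← zpow_neg]
          congr 1
          omega
      rw [mul_comm, pow_mul, ← zpow_natCast η]
      rcases h2 with h | h
      · rw [h, hζ]
      · rw [h, inv_pow, hζ, inv_one]
    rw [← Pi.mulSingle_pow, h1, Pi.mulSingle_one]
  · rw [mon_single, hη]

/-- **Necessary condition.** For a saturated Lehmer group of finite rank, all nontrivial
characters have the same image, which contains all coordinates. -/
theorem char_image (K : IntermediateField ℚ Qb) (Γ : Subgroup (Torus n))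
    (hΓ : HasFiniteRank Γ) (hs : IsSaturated Γ) (hL : IsLehmer K Γ) (v : Fin n → ℤ)
    (hv : v ≠ 0) : Γ.map (mon v) = coordGroup Γ := by
  apply le_antisymm
  · rw [Subgroup.map_le_iff_le_comap]
    intro γ hγ
    show mon v γ ∈ coordGroup Γ
    rw [mon_apply]
    apply Subgroup.prod_mem
    intro i _
    apply Subgroup.zpow_mem
    exact Subgroup.subset_closure ⟨γ, hγ, i, rfl⟩
  · rw [coordGroup, Subgroup.closure_le]
    rintro a ⟨γ, hγ, i, rfl⟩
    obtain ⟨c, hc0, hc⟩ := hL
    -- a root of `γ` of small height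
    obtain ⟨N, hN⟩ := exists_nat_gt
      ((n.factorial : ℝ) * NumberField.absLogHeight₁ ((γ i : Qbˣ) : Qb) / c)
    have hN0 : 0 < N := by
      rcases Nat.eq_zero_or_pos N with h | h
      · exfalso
        rw [h] at hN
        have : 0 ≤ (n.factorial : ℝ) * NumberField.absLogHeight₁ ((γ i : Qbˣ) : Qb) / c :=
          div_nonneg (mul_nonneg (by positivity) (h_nonneg _)) hc0.le
        push_cast at hN
        linarith
      · exact h
    obtain ⟨δ, hδ⟩ := exists_torus_root γ N hN0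
    have hδΓ : δ ∈ Γ := hs δ ⟨N, hN0, by rw [hδ]; exact hγ⟩
    have hex : ∃ m : ℕ, 0 < m ∧ ∃ γ' ∈ Γ, (δ i) ^ m = mon v γ' := by
      by_contra hcon
      push Not at hcon
      have h1 := main_ineq K Γ hΓ c hc v hv (δ i) hcon
      rw [natDegree_minpoly_of_mem _ _ (coord_mem K Γ δ hδΓ i)] at h1
      have h2 := h_pow (δ i) N
      have h3 : (δ i) ^ N = γ i := congrFun hδ i
      rw [h3] at h2
      rw [h2] at hN
      have hNr : (0 : ℝ) < N := by exact_mod_cast hN0
      rw [div_lt_iff₀ hc0] at hN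
      push_cast at h1
      have h4 : (n.factorial : ℝ) * (N * NumberField.absLogHeight₁ ((δ i : Qbˣ) : Qb)) =
          N * (n.factorial * 1 * NumberField.absLogHeight₁ ((δ i : Qbˣ) : Qb)) := by ring
      rw [h4] at hN
      have := mul_le_mul_of_nonneg_left h1 hNr.le
      linarith
    obtain ⟨m, hm, γ', hγ', hm'⟩ := hex
    have h3 : (δ i) ^ N = γ i := congrFun hδ i
    -- `γ i ^ m = mon v (γ' ^ N)`
    obtain ⟨ε, hε⟩ := exists_torus_root (γ' ^ N) m hm
    have hεΓ : ε ∈ Γ := hs ε ⟨m, hm, by rw [hε]; exact Γ.pow_mem hγ' N⟩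
    have h5 : (γ i * (mon v ε)⁻¹) ^ m = 1 := by
      rw [mul_pow, inv_pow, ← map_pow, hε, map_pow, ← hm', ← h3, ← pow_mul, ← pow_mul,
        mul_comm m N, mul_inv_cancel]
    obtain ⟨τ, M, hM, hτ, hτv⟩ := exists_torsion v hv _ m hm h5
    have hτΓ : τ ∈ Γ := hs τ ⟨M, hM, by rw [hτ]; exact Γ.one_mem⟩
    refine ⟨τ * ε, Γ.mul_mem hτΓ hεΓ, ?_⟩
    rw [map_mul, hτv]
    simp

lemma coordField_power (K : IntermediateField ℚ Qb) (Γ : Subgroup (Torus n)) :
    coordField K (powerGroup n (coordGroup Γ)) = coordField K Γ := by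
  apply le_antisymm
  · refine sup_le le_sup_left ?_
    rw [IntermediateField.adjoin_le_iff]
    rintro y ⟨g, hg, i, rfl⟩
    have key : ∀ a ∈ coordGroup Γ, (a : Qb) ∈ coordField K Γ := by
      intro a ha
      induction ha using Subgroup.closure_induction with
      | mem x hx =>
        obtain ⟨g, hg, i, rfl⟩ := hx
        exact coord_mem K Γ g hg i
      | one => exact (coordField K Γ).one_mem
      | mul x y _ _ hx hy =>
        push_cast
        exact (coordField K Γ).mul_mem hx hy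
      | inv x _ hx =>
        have : ((x⁻¹ : Qbˣ) : Qb) = (x : Qb)⁻¹ := by simp
        rw [this]
        exact (coordField K Γ).inv_mem hx
    exact key _ (hg i)
  · refine sup_le le_sup_left ?_
    rw [IntermediateField.adjoin_le_iff]
    rintro y ⟨g, hg, i, rfl⟩
    apply coord_mem
    intro i
    exact Subgroup.subset_closure ⟨g, hg, i, rfl⟩

lemma le_power (Γ : Subgroup (Torus n)) : Γ ≤ powerGroup n (coordGroup Γ) := by
  intro g hg i
  exact Subgroup.subset_closure ⟨g, hg, i, rfl⟩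

lemma transverse_mono {Γ Γ' : Subgroup (Torus n)} (h : Γ ≤ Γ') (V : Set (Torus n))
    (hV : IsTransverse Γ' V) : IsTransverse Γ V := by
  rintro W ⟨B, hB, g, ⟨m, hm, hg⟩, rfl⟩ hW
  exact hV _ ⟨B, hB, g, ⟨m, hm, h hg⟩, rfl⟩ hW

/-- the kernel of a primitive character is irreducible -/
lemma ker_irreducible (v w : Fin n → ℤ) (hvw : ∑ i, w i * v i = 1) :
    IsSubvariety (((mon v).ker : Subgroup (Torus n)) : Set (Torus n)) := by
  have h := level_singleton_irreducible v w hvw 1
  rw [level_singleton] at h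
  have h2 : (((mon v).ker : Subgroup (Torus n)) : Set (Torus n)) = {x : Torus n | mon v x = 1} := by
    ext x
    simp [MonoidHom.mem_ker]
  rw [h2]
  exact h

/-- a proper connected subgroup is contained in the kernel of a primitive character -/
lemma exists_primitive_character (B : Subgroup (Torus n)) (hB : IsSubvariety (B : Set (Torus n)))
    (hne : (B : Set (Torus n)) ≠ Set.univ) :
    ∃ v w : Fin n → ℤ, ∑ i, w i * v i = 1 ∧ ∀ b ∈ B, mon v b = 1 := by
  classical
  obtain ⟨v0, hv0, hvB⟩ := exists_character B hB.1 hne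
  obtain ⟨d, v, w, hd, rfl, hw⟩ := exists_primitive v0 hv0
  refine ⟨v, w, hw, ?_⟩
  have h1 : ∀ b ∈ B, (mon v b) ^ d = 1 := by
    intro b hb
    have := hvB b hb
    rw [← mon_apply, mon_smul, zpow_natCast] at this
    exact this
  have hd' : NeZero d := ⟨hd.ne'⟩
  have hfin : {ζ : Qbˣ | ζ ^ d = 1}.Finite := by
    have h2 : {ζ : Qbˣ | ζ ^ d = 1} = ((rootsOfUnity d Qb : Subgroup Qbˣ) : Set Qbˣ) := by
      ext ζ
      simp [mem_rootsOfUnity]
    rw [h2]
    exact Set.finite_coe_iff.mp (inferInstanceAs (Finite (rootsOfUnity d Qb)))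
  have hBU : (B : Set (Torus n)) ⊆ level v hfin.toFinset := by
    intro b hb
    show mon v b ∈ hfin.toFinset
    rw [Set.Finite.mem_toFinset]
    exact h1 b hb
  obtain ⟨ζ, _, hζ⟩ := exists_level v _ _ hB hBU
  rw [level_singleton] at hζ
  have h3 : mon v 1 = ζ := hζ B.one_mem
  rw [map_one] at h3
  intro b hb
  have h4 : mon v b = ζ := hζ hb
  rw [h4, ← h3]

/-- if all nontrivial characters of `Γ` have the same image `A`, then every `Γ`-transverse set is
`A ^ n`-transverse -/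
lemma transverse_power (Γ : Subgroup (Torus n))
    (h : ∀ v : Fin n → ℤ, v ≠ 0 → Γ.map (mon v) = coordGroup Γ) (V : Set (Torus n))
    (hV : IsTransverse Γ V) : IsTransverse (powerGroup n (coordGroup Γ)) V := by
  rintro W ⟨B, hB, g, ⟨m, hm, hg⟩, rfl⟩ hW hVW
  have hBu : (B : Set (Torus n)) ≠ Set.univ := by
    intro hBu
    apply hW
    apply Set.eq_univ_of_forall
    intro x
    refine ⟨x * g⁻¹, ?_, by simp⟩
    have : x * g⁻¹ ∈ (B : Set (Torus n)) := by rw [hBu]; trivial
    exact this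
  obtain ⟨v, w, hw, hvB⟩ := exists_primitive_character B hB hBu
  have hv : v ≠ 0 := by
    rintro rfl
    simp at hw
  have h1 : mon v (g ^ m) ∈ coordGroup Γ := by
    rw [mon_apply]
    apply Subgroup.prod_mem
    intro i _
    apply Subgroup.zpow_mem
    exact hg i
  rw [← h v hv] at h1
  obtain ⟨γ, hγ, hγm⟩ := h1
  obtain ⟨δ, hδ⟩ := exists_torus_root γ m hm
  have h2 : (mon v g * (mon v δ)⁻¹) ^ m = 1 := by
    rw [mul_pow, inv_pow, ← map_pow, ← map_pow, hδ, ← hγm, mul_inv_cancel]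
  obtain ⟨τ, M, hM, hτ, hτv⟩ := exists_torsion v hv _ m hm h2
  have hsat : InSat Γ (τ * δ) := by
    refine ⟨M * m, Nat.mul_pos hM hm, ?_⟩
    rw [mul_pow, pow_mul, hτ, one_pow, one_mul, mul_comm M m, pow_mul, hδ]
    exact Γ.pow_mem hγ M
  have hval : mon v (τ * δ) = mon v g := by
    rw [map_mul, hτv]
    simp
  refine hV {x | ∃ b ∈ (mon v).ker, x = b * (τ * δ)}
    ⟨(mon v).ker, ker_irreducible v w hw, τ * δ, hsat, rfl⟩ ?_ ?_
  · intro huniv
    have h3 : retr v w (mon v g * two) 1 ∈ {x | ∃ b ∈ (mon v).ker, x = b * (τ * δ)} := by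
      rw [huniv]
      trivial
    obtain ⟨b, hb, hbx⟩ := h3
    have h4 := mon_retr_self v w hw (mon v g * two) 1
    rw [hbx, map_mul, MonoidHom.mem_ker.mp hb, one_mul, hval] at h4
    have h5 : two = 1 := by
      have : mon v g * 1 = mon v g * two := by rw [mul_one]; exact h4
      exact (mul_left_cancel this).symm
    have h6 : two ^ (1 : ℤ) = two ^ (0 : ℤ) := by rw [zpow_one, zpow_zero, h5]
    exact absurd (two_zpow_inj h6) one_ne_zero
  · intro x hx
    obtain ⟨b, hb, hbx⟩ := hVW hx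
    refine ⟨x * (τ * δ)⁻¹, ?_, (inv_mul_cancel_right x (τ * δ)).symm⟩
    rw [MonoidHom.mem_ker, map_mul, map_inv, hval, hbx, map_mul, hvB b hb, one_mul,
      mul_inv_cancel]

/-- if all nontrivial characters of `Γ` have the same image `A`, then Rémond's inequality for `Γ`
is equivalent to the one for `A ^ n` -/
theorem bound_iff (K : IntermediateField ℚ Qb) (Γ : Subgroup (Torus n))
    (h : ∀ v : Fin n → ℤ, v ≠ 0 → Γ.map (mon v) = coordGroup Γ) (c : ℝ) :
    LehmerBound K Γ c ↔ LehmerBound K (powerGroup n (coordGroup Γ)) c := by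
  unfold LehmerBound
  rw [coordField_power]
  constructor
  · intro H V hV hVu htr
    exact H V hV hVu (transverse_mono (le_power Γ) V htr)
  · intro H V hV hVu htr
    exact H V hV hVu (transverse_power Γ h V htr)

/-- **The saturated Lehmer groups.** -/
theorem lehmer_iff (K : IntermediateField ℚ Qb) (Γ : Subgroup (Torus n))
    (hΓ : HasFiniteRank Γ) (hs : IsSaturated Γ) :
    IsLehmer K Γ ↔ (∀ v : Fin n → ℤ, v ≠ 0 → Γ.map (mon v) = coordGroup Γ) ∧
      IsLehmer K (powerGroup n (coordGroup Γ)) := by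
  constructor
  · intro hL
    have h := char_image K Γ hΓ hs hL
    refine ⟨h, ?_⟩
    obtain ⟨c, hc0, hc⟩ := hL
    exact ⟨c, hc0, (bound_iff K Γ h c).mp hc⟩
  · rintro ⟨h, c, hc0, hc⟩
    exact ⟨c, hc0, (bound_iff K Γ h c).mpr hc⟩

/-- the group of the points `(x, 1, ..., 1)` for which a positive power of `x` is a power of `2` -/
noncomputable def badGroup {n : ℕ} (j : Fin n) : Subgroup (Torus n) where
  carrier := {x | (∀ i, i ≠ j → x i = 1) ∧ ∃ m : ℕ, 0 < m ∧ ∃ k : ℤ, (x j) ^ m = two ^ k}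
  mul_mem' := by
    rintro x y ⟨hx, m, hm, k, hk⟩ ⟨hy, m', hm', k', hk'⟩
    refine ⟨fun i hi => by rw [Pi.mul_apply, hx i hi, hy i hi, one_mul], m * m',
      Nat.mul_pos hm hm', k * m' + k' * m, ?_⟩
    rw [Pi.mul_apply, mul_pow, pow_mul, hk, mul_comm m m', pow_mul, hk', zpow_add, zpow_mul,
      zpow_mul, zpow_natCast, zpow_natCast]
  one_mem' := ⟨fun _ _ => rfl, 1, one_pos, 0, by simp⟩
  inv_mem' := by
    rintro x ⟨hx, m, hm, k, hk⟩
    refine ⟨fun i hi => by rw [Pi.inv_apply, hx i hi, inv_one], m, hm, -k, ?_⟩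
    rw [Pi.inv_apply, inv_pow, hk, zpow_neg]

lemma bad_rank {n : ℕ} (j : Fin n) : ∃ t ∈ badGroup j, ∀ g ∈ badGroup j, ∃ m : ℕ, 0 < m ∧
    g ^ m ∈ Subgroup.zpowers t := by
  refine ⟨Pi.mulSingle j two, ⟨fun i hi => Pi.mulSingle_eq_of_ne hi _, 1, one_pos, 1, by simp⟩,
    ?_⟩
  rintro g ⟨hg, m, hm, k, hk⟩
  refine ⟨m, hm, ?_⟩
  rw [Subgroup.mem_zpowers_iff]
  refine ⟨k, ?_⟩
  rw [← Pi.mulSingle_zpow]
  funext i
  by_cases hi : i = j
  · subst hi
    rw [Pi.mulSingle_eq_same, Pi.pow_apply, hk]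
  · rw [Pi.mulSingle_eq_of_ne hi, Pi.pow_apply, hg i hi, one_pow]

lemma finiteRank_of_one (Γ : Subgroup (Torus n)) (h : ∃ t ∈ Γ, ∀ g ∈ Γ, ∃ m : ℕ, 0 < m ∧
    g ^ m ∈ Subgroup.zpowers t) : HasFiniteRank Γ := by
  classical
  obtain ⟨t, ht, h⟩ := h
  refine ⟨{t}, by simpa using ht, ?_⟩
  intro g hg
  obtain ⟨m, hm, h1⟩ := h g hg
  refine ⟨m, hm, ?_⟩
  rw [Finset.coe_singleton, ← Subgroup.zpowers_eq_closure]
  exact h1

theorem bad_not_bound (K : IntermediateField ℚ Qb) {n : ℕ} (j j' : Fin n) (hjj : j' ≠ j) (c : ℝ)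
    (hc0 : 0 < c) : ¬ LehmerBound K (badGroup j) c := by
  intro hc
  obtain ⟨N, hN⟩ := exists_nat_gt
    ((n.factorial : ℝ) * NumberField.absLogHeight₁ ((two : Qbˣ) : Qb) / c)
  have hN0 : 0 < N := by
    rcases Nat.eq_zero_or_pos N with h | h
    · exfalso
      rw [h] at hN
      have : 0 ≤ (n.factorial : ℝ) * NumberField.absLogHeight₁ ((two : Qbˣ) : Qb) / c :=
        div_nonneg (mul_nonneg (by positivity) (h_nonneg _)) hc0.le
      push_cast at hN
      linarith
    · exact h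
  obtain ⟨u, hu⟩ := exists_root two N hN0
  have hmem : Pi.mulSingle j u ∈ badGroup j :=
    ⟨fun i hi => Pi.mulSingle_eq_of_ne hi _, N, hN0, 1, by rw [Pi.mulSingle_eq_same, hu, zpow_one]⟩
  have hv : (Pi.single j' 1 : Fin n → ℤ) ≠ 0 := by
    intro h
    have := congrFun h j'
    simp at this
  have h1 := main_ineq K (badGroup j) (finiteRank_of_one _ (bad_rank j)) c hc (Pi.single j' 1) hv u
    (by
      intro m hm γ hγ h
      have h2 : mon (Pi.single j' 1) γ = 1 := by
        rw [mon_apply, Finset.prod_eq_one]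
        intro i _
        by_cases hi : i = j'
        · subst hi
          rw [hγ.1 _ hjj, one_zpow]
        · rw [Pi.single_eq_of_ne hi, zpow_zero]
      rw [h2] at h
      have h3 : two ^ (m : ℤ) = two ^ (0 : ℤ) := by
        rw [zpow_natCast, zpow_zero, ← hu, ← pow_mul, mul_comm, pow_mul, h, one_pow]
      have := two_zpow_inj h3
      omega)
  have h2 : ((Pi.mulSingle j u : Torus n) j : Qb) ∈ coordField K (badGroup j) :=
    coord_mem K _ _ hmem j
  rw [Pi.mulSingle_eq_same] at h2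
  rw [natDegree_minpoly_of_mem _ _ h2] at h1
  have h3 := h_pow u N
  rw [hu] at h3
  rw [h3] at hN
  have hNr : (0 : ℝ) < N := by exact_mod_cast hN0
  rw [div_lt_iff₀ hc0] at hN
  push_cast at h1
  have h4 : (n.factorial : ℝ) * (N * NumberField.absLogHeight₁ (u : Qb)) =
      N * (n.factorial * 1 * NumberField.absLogHeight₁ (u : Qb)) := by ring
  rw [h4] at hN
  have := mul_le_mul_of_nonneg_left h1 hNr.le
  linarith

end Pool.Agent.W2helper46.RL
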