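import Pool.Agent.W2helper46.RL.Mon

set_option autoImplicit false

/-!
# Multiplicatively independent numbers
-/

namespace Pool.Agent.W2helper46.RL

open Module

variable {n : ℕ}

lemma padic_prod (p : ℕ) [Fact p.Prime] (s : Finset ℕ) (q : ℕ → ℕ) (hq : ∀ i, (q i).Prime)
    (g : ℕ → ℤ) : padicValRat p (∏ i ∈ s, ((q i : ℚ)) ^ g i) =
      ∑ i ∈ s, g i * (padicValNat p (q i) : ℤ) := by
  classical
  induction s using Finset.induction_on with
  | empty => simp
  | insert i s hi ih =>
    have h0 : ∀ i, ((q i : ℚ)) ≠ 0 := fun i => by exact_mod_cast (hq i).ne_zero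
    rw [Finset.prod_insert hi, Finset.sum_insert hi, padicValRat.mul (zpow_ne_zero _ (h0 i))
      (Finset.prod_ne_zero_iff.mpr fun j _ => zpow_ne_zero _ (h0 j)), ih, padicValRat.zpow,
      padicValRat.of_nat]

/-- the prime numbers as units -/
noncomputable def pr (i : ℕ) : Qbˣ :=
  Units.mk0 ((Nat.nth Nat.Prime i : ℕ) : Qb)
    (by exact_mod_cast (Nat.prime_nth_prime i).ne_zero)

lemma pr_linearIndependent :
    LinearIndependent ℤ (fun i : ℕ => (Additive.ofMul (pr i) : Additive Qbˣ)) := by
  rw [linearIndependent_iff']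
  intro s g hg j hj
  have h1 : ∏ i ∈ s, pr i ^ g i = 1 := by
    have := congrArg Additive.toMul hg
    rw [toMul_sum] at this
    simpa using this
  have h2 : ∏ i ∈ s, ((Nat.nth Nat.Prime i : ℕ) : Qb) ^ g i = 1 := by
    have := congrArg Units.val h1
    push_cast at this
    simpa [pr] using this
  have h3 : ∏ i ∈ s, ((Nat.nth Nat.Prime i : ℕ) : ℚ) ^ g i = 1 := by
    apply (algebraMap ℚ Qb).injective
    rw [map_prod, map_one, ← h2]
    apply Finset.prod_congr rfl
    intro i _
    rw [map_zpow₀, map_natCast]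
  have : Fact (Nat.nth Nat.Prime j).Prime := ⟨Nat.prime_nth_prime j⟩
  have h4 := padic_prod (Nat.nth Nat.Prime j) s (Nat.nth Nat.Prime) Nat.prime_nth_prime g
  rw [h3, padicValRat.one, Finset.sum_eq_single j] at h4
  · simpa using h4.symm
  · intro i _ hij
    have : Fact (Nat.nth Nat.Prime i).Prime := ⟨Nat.prime_nth_prime i⟩
    rw [padicValNat_primes]
    · simp
    · intro h
      exact hij (Nat.nth_injective Nat.infinite_setOfPred_prime h).symm
  · intro h
    exact absurd hj h

open scoped Classical in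
lemma closure_eq_span (D : Finset Qbˣ) (x : Qbˣ) (h : x ∈ Subgroup.closure (D : Set Qbˣ)) :
    (Additive.ofMul x : Additive Qbˣ) ∈
      Submodule.span ℤ ((D.image Additive.ofMul : Finset (Additive Qbˣ)) : Set (Additive Qbˣ)) := by
  induction h using Subgroup.closure_induction with
  | mem x hx =>
    apply Submodule.subset_span
    simpa using hx
  | one => exact Submodule.zero_mem _
  | mul x y _ _ hx hy =>
    rw [ofMul_mul]
    exact Submodule.add_mem _ hx hy
  | inv x _ hx =>
    rw [ofMul_inv]
    exact Submodule.neg_mem _ hx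

/-- there are `n` numbers which are multiplicatively independent modulo a finitely generated
group -/
lemma exists_independent (n : ℕ) (D : Finset Qbˣ) :
    ∃ q : Fin n → Qbˣ, ∀ v : Fin n → ℤ, mon v q ∈ Subgroup.closure (D : Set Qbˣ) → v = 0 := by
  classical
  set N := Submodule.span ℤ
    ((D.image Additive.ofMul : Finset (Additive Qbˣ)) : Set (Additive Qbˣ)) with hN
  have h1 : Module.rank ℤ (Additive Qbˣ ⧸ N) + Module.rank ℤ N = Module.rank ℤ (Additive Qbˣ) :=
    rank_quotient_add_rank_of_isDomain N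
  have h2 : Module.rank ℤ N ≤ ((D.image Additive.ofMul : Finset (Additive Qbˣ)).card : Cardinal) :=
    rank_span_finset_le _
  have h3 : Cardinal.aleph0 ≤ Module.rank ℤ (Additive Qbˣ) := by
    have := pr_linearIndependent.cardinal_lift_le_rank
    simpa using this
  have h4 : ((n : ℕ) : Cardinal) ≤ Module.rank ℤ (Additive Qbˣ ⧸ N) := by
    by_contra hcon
    push Not at hcon
    have h5 : Module.rank ℤ (Additive Qbˣ ⧸ N) < Cardinal.aleph0 :=
      hcon.trans Cardinal.natCast_lt_aleph0
    have h6 : Module.rank ℤ N < Cardinal.aleph0 := h2.trans_lt Cardinal.natCast_lt_aleph0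
    have h7 := Cardinal.add_lt_aleph0 h5 h6
    rw [h1] at h7
    exact absurd h3 (not_le.mpr h7)
  obtain ⟨f, hf⟩ := exists_linearIndependent_of_le_rank h4
  have hq : ∀ i, ∃ q : Qbˣ, (Submodule.Quotient.mk (Additive.ofMul q) : Additive Qbˣ ⧸ N) = f i := by
    intro i
    obtain ⟨y, hy⟩ := Submodule.Quotient.mk_surjective N (f i)
    exact ⟨Additive.toMul y, hy⟩
  choose q hq using hq
  refine ⟨q, fun v hv => ?_⟩
  have h5 := closure_eq_span D _ hv
  rw [← hN] at h5
  have h6 : ∑ i, v i • f i = 0 := by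
    have h7 : (Submodule.Quotient.mk (Additive.ofMul (mon v q)) : Additive Qbˣ ⧸ N) = 0 :=
      (Submodule.Quotient.mk_eq_zero N).mpr h5
    rw [← h7, mon_apply, ofMul_prod]
    have h8 := map_sum (N.mkQ) (fun i => (Additive.ofMul (q i ^ v i) : Additive Qbˣ)) Finset.univ
    rw [Submodule.mkQ_apply] at h8
    rw [h8]
    apply Finset.sum_congr rfl
    intro i _
    rw [ofMul_zpow, map_zsmul, Submodule.mkQ_apply, hq]
  funext i
  exact Fintype.linearIndependent_iff.mp hf v h6 i

end Pool.Agent.W2helper46.RL
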