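import Pool.Agent.W2helper46.RL.Pts

set_option autoImplicit false

/-!
# The lower bound for the heights of all numbers which is implied by Rémond's inequality
-/

namespace Pool.Agent.W2helper46.RL

open Filter Topology

variable {n : ℕ}

lemma exists_root (x : Qbˣ) (k : ℕ) (hk : 0 < k) : ∃ y : Qbˣ, y ^ k = x := by
  obtain ⟨z, hz⟩ := IsAlgClosed.exists_pow_nat_eq (x : Qb) hk
  have hz0 : z ≠ 0 := by
    rintro rfl
    rw [zero_pow hk.ne'] at hz
    exact x.ne_zero hz.symm
  exact ⟨Units.mk0 z hz0, Units.ext (by simpa using hz)⟩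

lemma exists_zroot (x : Qbˣ) (k : ℤ) (hk : k ≠ 0) : ∃ y : Qbˣ, y ^ k = x := by
  obtain ⟨c, rfl | rfl⟩ := k.eq_nat_or_neg
  · obtain ⟨y, hy⟩ := exists_root x c (by omega)
    exact ⟨y, by rw [zpow_natCast, hy]⟩
  · obtain ⟨y, hy⟩ := exists_root x c (by omega)
    exact ⟨y⁻¹, by rw [zpow_neg, zpow_natCast, inv_pow, hy, inv_inv]⟩

lemma transverse_of (Γ : Subgroup (Torus n)) (P : Torus n)
    (h : ∀ v : Fin n → ℤ, v ≠ 0 → ∀ m : ℕ, 0 < m → ∀ γ ∈ Γ, (mon v P) ^ m ≠ mon v γ) :
    IsTransverse Γ {P} := by
  rintro W ⟨B, hB, g, ⟨m, hm, hg⟩, rfl⟩ hW hP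
  obtain ⟨b, hb, hPb⟩ := hP (Set.mem_singleton P)
  have hBu : (B : Set (Torus n)) ≠ Set.univ := by
    intro hBu
    apply hW
    apply Set.eq_univ_of_forall
    intro x
    refine ⟨x * g⁻¹, ?_, by simp⟩
    have : x * g⁻¹ ∈ (B : Set (Torus n)) := by rw [hBu]; trivial
    exact this
  obtain ⟨v, hv, hvB⟩ := exists_character B hB.1 hBu
  apply h v hv m hm _ hg
  have h1 : mon v b = 1 := hvB b hb
  rw [hPb, map_mul, h1, one_mul, map_pow]

/-- the finite set of the coordinates of the points of a finite set, and `u` -/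
noncomputable def coords (T : Finset (Torus n)) (u : Qbˣ) : Finset Qbˣ := by
  classical
  exact insert u (T.biUnion fun t => Finset.univ.image t)

lemma mem_coords_self (T : Finset (Torus n)) (u : Qbˣ) : u ∈ coords T u := by
  simp [coords]

lemma mem_coords {T : Finset (Torus n)} {t : Torus n} (ht : t ∈ T) (u : Qbˣ) (i : Fin n) :
    t i ∈ coords T u := by
  simp only [coords, Finset.mem_insert, Finset.mem_biUnion, Finset.mem_image, Finset.mem_univ,
    true_and]
  exact Or.inr ⟨t, ht, i, rfl⟩

lemma mon_mem_closure (T : Finset (Torus n)) (u : Qbˣ) (g : Torus n)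
    (hg : g ∈ Subgroup.closure (T : Set (Torus n))) (v : Fin n → ℤ) :
    mon v g ∈ Subgroup.closure (coords T u : Set Qbˣ) := by
  have h1 : Subgroup.closure (T : Set (Torus n)) ≤
      (Subgroup.closure (coords T u : Set Qbˣ)).comap (mon v) := by
    rw [Subgroup.closure_le]
    intro t ht
    show mon v t ∈ Subgroup.closure (coords T u : Set Qbˣ)
    rw [mon_apply]
    apply Subgroup.prod_mem
    intro i _
    apply Subgroup.zpow_mem
    exact Subgroup.subset_closure (mem_coords ht u i)
  exact h1 hg

/-- **The main inequality, for the primitive characters.** -/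
theorem main_primitive (K : IntermediateField ℚ Qb) (Γ : Subgroup (Torus n))
    (hΓ : HasFiniteRank Γ) (c : ℝ) (hc : LehmerBound K Γ c) (v w : Fin n → ℤ)
    (hvw : ∑ i, w i * v i = 1) (u : Qbˣ) (hu : ∀ m : ℕ, 0 < m → ∀ γ ∈ Γ, u ^ m ≠ mon v γ) :
    c ≤ n.factorial * (minpoly (coordField K Γ) (u : Qb)).natDegree *
      NumberField.absLogHeight₁ (u : Qb) := by
  classical
  obtain ⟨T, hT, hTΓ⟩ := hΓ
  obtain ⟨U, huU, hUc, hUd⟩ := exists_conj (n := n) (coordField K Γ) u
  obtain ⟨q, hq⟩ := exists_independent n (coords T u)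
  have hv : v ≠ 0 := by
    rintro rfl
    simp at hvw
  obtain ⟨j0, hj0⟩ := Function.ne_iff.mp hv
  have hn : 0 < n := Fin.pos j0
  -- the index of the largest exponent
  obtain ⟨j, -, hjmax⟩ := Finset.exists_max_image Finset.univ (fun i => |v i|) ⟨j0, Finset.mem_univ j0⟩
  have hj : v j ≠ 0 := by
    have h1 := hjmax j0 (Finset.mem_univ j0)
    have h2 : 0 < |v j0| := abs_pos.mpr hj0
    exact abs_pos.mp (lt_of_lt_of_le h2 h1)
  have hjpos : (0 : ℝ) < |(v j : ℝ)| := abs_pos.mpr (by exact_mod_cast hj)
  set hu' : ℝ := NumberField.absLogHeight₁ (u : Qb) with hhu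
  set H : ℝ := ∑ i, NumberField.absLogHeight₁ (q i : Qb) with hH
  have key : ∀ M : ℕ, 0 < M → c ≤ (n - 1).factorial * (U.card * ∑ i, |(v i : ℝ)|) *
      (hu' / |(v j : ℝ)| + 2 * H / M) := by
    intro M hM
    have hroots : ∀ i, ∃ t : Qbˣ, t ^ M = q i := fun i => exists_root (q i) M hM
    choose t ht using hroots
    obtain ⟨z, hz⟩ := exists_zroot (u * ∏ i ∈ Finset.univ.erase j, (t i) ^ (-(v i))) (v j) hj
    set P : Torus n := Function.update t j z with hP
    have hmonP : ∀ v' : Fin n → ℤ,
        mon v' P = z ^ v' j * ∏ i ∈ Finset.univ.erase j, t i ^ v' i := by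
      intro v'
      rw [mon_apply, ← Finset.mul_prod_erase Finset.univ _ (Finset.mem_univ j)]
      congr 1
      · rw [hP, Function.update_self]
      · apply Finset.prod_congr rfl
        intro i hi
        rw [hP, Function.update_of_ne (Finset.ne_of_mem_erase hi)]
    have hPv : mon v P = u := by
      rw [hmonP, hz, mul_assoc, ← Finset.prod_mul_distrib]
      rw [Finset.prod_eq_one]
      · rw [mul_one]
      · intro i _
        rw [← zpow_add, neg_add_cancel, zpow_zero]
    -- the height of `P`
    have hht : ∀ i, NumberField.absLogHeight₁ (t i : Qb) =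
        NumberField.absLogHeight₁ (q i : Qb) / M := by
      intro i
      have h1 := h_pow (t i) M
      rw [ht i] at h1
      have hM' : (M : ℝ) ≠ 0 := by positivity
      rw [h1]
      field_simp
    have hsumt : ∑ i, NumberField.absLogHeight₁ (t i : Qb) = H / M := by
      rw [hH, Finset.sum_div]
      exact Finset.sum_congr rfl fun i _ => hht i
    have hsumt' : ∑ i ∈ Finset.univ.erase j, NumberField.absLogHeight₁ (t i : Qb) ≤ H / M := by
      rw [← hsumt]
      exact Finset.sum_le_sum_of_subset_of_nonneg (Finset.erase_subset _ _)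
        fun i _ _ => h_nonneg (t i)
    have hzh : NumberField.absLogHeight₁ (z : Qb) ≤ hu' / |(v j : ℝ)| + H / M := by
      have h1 := h_zpow z (v j)
      rw [hz] at h1
      have h2 : NumberField.absLogHeight₁
          ((u * ∏ i ∈ Finset.univ.erase j, (t i) ^ (-(v i)) : Qbˣ) : Qb) ≤
          hu' + |(v j : ℝ)| * (H / M) := by
        refine (h_mul_le _ _).trans ?_
        apply add_le_add le_rfl
        refine (h_prod_le _ _).trans ?_
        refine le_trans ?_ (mul_le_mul_of_nonneg_left hsumt' hjpos.le)
        rw [Finset.mul_sum]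
        apply Finset.sum_le_sum
        intro i _
        rw [h_zpow]
        apply mul_le_mul_of_nonneg_right _ (h_nonneg _)
        have h3 := hjmax i (Finset.mem_univ i)
        have h4 : |(((-(v i) : ℤ)) : ℝ)| = ((|v i| : ℤ) : ℝ) := by
          push_cast
          rw [abs_neg]
        have h5 : |(v j : ℝ)| = ((|v j| : ℤ) : ℝ) := by push_cast; rfl
        rw [h4, h5]
        exact_mod_cast h3
      rw [h1] at h2
      have h3 : NumberField.absLogHeight₁ (z : Qb) ≤
          (hu' + |(v j : ℝ)| * (H / M)) / |(v j : ℝ)| := by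
        rw [le_div_iff₀ hjpos]
        linarith
      refine h3.trans (le_of_eq ?_)
      field_simp
    have hPh : hG P ≤ hu' / |(v j : ℝ)| + 2 * H / M := by
      rw [hG, ← Finset.add_sum_erase Finset.univ _ (Finset.mem_univ j)]
      have h1 : ∑ i ∈ Finset.univ.erase j, NumberField.absLogHeight₁ (P i : Qb) =
          ∑ i ∈ Finset.univ.erase j, NumberField.absLogHeight₁ (t i : Qb) := by
        apply Finset.sum_congr rfl
        intro i hi
        rw [hP, Function.update_of_ne (Finset.ne_of_mem_erase hi)]
      have h2 : P j = z := by rw [hP, Function.update_self]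
      rw [h1, h2]
      have h3 : 2 * H / (M : ℝ) = H / M + H / M := by ring
      rw [h3]
      linarith
    -- `P` is transverse
    have htr : IsTransverse Γ {P} := by
      apply transverse_of
      intro v' hv' m hm γ hγ heq
      obtain ⟨m2, hm2, hγ2⟩ := hTΓ γ hγ
      -- the exponents
      set a : Fin n → ℤ := fun i => v' i * v j - v i * v' j with ha
      have hmon : (mon v' P) ^ (v j) = u ^ (v' j) * mon a t := by
        rw [hmonP, mul_zpow, ← zpow_mul, mul_comm (v' j) (v j), zpow_mul, hz, mul_zpow,
          ← Finset.prod_zpow, ← Finset.prod_zpow, mul_assoc, ← Finset.prod_mul_distrib]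
        congr 1
        rw [mon_apply, ← Finset.mul_prod_erase Finset.univ _ (Finset.mem_univ j)]
        have h1 : a j = 0 := by simp only [ha]; ring
        rw [h1, zpow_zero, one_mul]
        apply Finset.prod_congr rfl
        intro i _
        rw [← zpow_mul, ← zpow_mul, ← zpow_add]
        congr 1
        simp only [ha]
        ring
      have htM : (mon a t) ^ M = mon a q := by
        rw [← map_pow]
        congr 1
        funext i
        exact ht i
      have hmem : mon ((m * m2 : ℤ) • a) q ∈ Subgroup.closure (coords T u : Set Qbˣ) := by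
        have h1 : mon ((m * m2 : ℤ) • a) q =
            (mon v' (γ ^ m2)) ^ (v j * M) * u ^ (-(v' j * M * (m * m2))) := by
          rw [mon_smul, ← htM, map_pow, ← heq]
          have h2 : mon a t = (mon v' P) ^ (v j) * (u ^ (v' j))⁻¹ := by
            rw [hmon]
            rw [mul_comm (u ^ v' j), mul_assoc, mul_inv_cancel, mul_one]
          rw [h2, ← zpow_natCast, ← zpow_mul, mul_zpow, ← zpow_mul, ← zpow_natCast,
            ← zpow_natCast, ← zpow_mul, ← zpow_mul, ← zpow_neg, ← zpow_mul]
          congr 1
          · congr 1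
            ring
          · congr 1
            ring
        rw [h1]
        apply Subgroup.mul_mem
        · apply Subgroup.zpow_mem
          exact mon_mem_closure T u _ hγ2 v'
        · apply Subgroup.zpow_mem
          exact Subgroup.subset_closure (mem_coords_self T u)
      have ha0 := hq _ hmem
      have haz : ∀ i, v' i * v j = v i * v' j := by
        intro i
        have h1 := congrFun ha0 i
        simp only [Pi.smul_apply, smul_eq_mul, Pi.zero_apply, ha] at h1
        rcases mul_eq_zero.mp h1 with h2 | h2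
        · exfalso
          have : (m : ℤ) * m2 ≠ 0 := by positivity
          exact this h2
        · linarith
      set r : ℤ := ∑ i, w i * v' i with hr
      have hrj : r * v j = v' j := by
        rw [hr, Finset.sum_mul]
        have : ∀ i ∈ Finset.univ, w i * v' i * v j = (w i * v i) * v' j := by
          intro i _
          rw [mul_assoc, haz i, mul_assoc]
        rw [Finset.sum_congr rfl this, ← Finset.sum_mul, hvw, one_mul]
      have hvr : v' = r • v := by
        funext i
        simp only [Pi.smul_apply, smul_eq_mul]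
        have h1 := haz i
        rw [← hrj] at h1
        have h2 : (v' i - r * v i) * v j = 0 := by linear_combination h1
        rcases mul_eq_zero.mp h2 with h3 | h3
        · linarith
        · exact absurd h3 hj
      have hr0 : r ≠ 0 := by
        intro h
        apply hv'
        rw [hvr, h, zero_smul]
      rw [hvr, mon_smul, mon_smul, hPv] at heq
      obtain ⟨d, hd | hd⟩ := r.eq_nat_or_neg
      · rw [hd, zpow_natCast, zpow_natCast, ← pow_mul, ← map_pow] at heq
        exact hu (d * m) (Nat.mul_pos (by omega) hm) _ (Γ.pow_mem hγ d) heq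
      · rw [hd, zpow_neg, zpow_neg, zpow_natCast, zpow_natCast, inv_pow, inv_inj, ← pow_mul,
          ← map_pow] at heq
        exact hu (d * m) (Nat.mul_pos (by omega) hm) _ (Γ.pow_mem hγ d) heq
    have hPlev : ({P} : Set (Torus n)) ⊆ level v U := by
      intro x hx
      rw [Set.mem_singleton_iff] at hx
      rw [hx]
      show mon v P ∈ U
      rw [hPv]
      exact huU
    have hPu : ({P} : Set (Torus n)) ≠ Set.univ := by
      intro h
      rw [h] at hPlev
      exact level_ne_univ v w hvw U (Set.eq_univ_of_univ_subset hPlev)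
    have h1 := hc {P} (singleton_subvariety P) hPu htr
    rw [essMin_singleton] at h1
    have h2 := obstructionIndex_le (coordField K Γ) v w hvw U ⟨u, huU⟩ (hUd v) {P} hPlev
    refine h1.trans ?_
    exact mul_le_mul h2 hPh (hG_nonneg P) ((obstructionIndex_nonneg _ _).trans h2)
  -- the limit
  have hlim : Tendsto (fun M : ℕ => (n - 1).factorial * (U.card * ∑ i, |(v i : ℝ)|) *
      (hu' / |(v j : ℝ)| + 2 * H / (M : ℝ))) atTop
      (𝓝 ((n - 1).factorial * (U.card * ∑ i, |(v i : ℝ)|) * (hu' / |(v j : ℝ)| + 0))) := by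
    apply Tendsto.const_mul
    apply Tendsto.const_add
    exact tendsto_const_div_atTop_nhds_zero_nat _
  have h1 : c ≤ (n - 1).factorial * (U.card * ∑ i, |(v i : ℝ)|) * (hu' / |(v j : ℝ)| + 0) := by
    apply ge_of_tendsto hlim
    filter_upwards [eventually_gt_atTop 0] with M hM
    exact key M hM
  refine h1.trans ?_
  have h2 : ∑ i, |(v i : ℝ)| ≤ n * |(v j : ℝ)| := by
    have : ∑ i, |(v i : ℝ)| ≤ ∑ _i : Fin n, |(v j : ℝ)| := by
      apply Finset.sum_le_sum
      intro i _
      have h3 := hjmax i (Finset.mem_univ i)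
      exact_mod_cast h3
    refine this.trans (le_of_eq ?_)
    simp
  have hu0 : 0 ≤ hu' := h_nonneg u
  rw [add_zero, ← hUc]
  have h3 : ((n - 1).factorial : ℝ) * (U.card * ∑ i, |(v i : ℝ)|) * (hu' / |(v j : ℝ)|) =
      ((n - 1).factorial : ℝ) * U.card * hu' * ((∑ i, |(v i : ℝ)|) / |(v j : ℝ)|) := by
    field_simp
  have h4 : (∑ i, |(v i : ℝ)|) / |(v j : ℝ)| ≤ n := by
    rw [div_le_iff₀ hjpos]
    exact h2
  have h5 : (n.factorial : ℝ) = n * ((n - 1).factorial : ℝ) := by
    rw [← Nat.mul_factorial_pred hn.ne']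
    push_cast
    rfl
  rw [h3, h5]
  have h6 : 0 ≤ ((n - 1).factorial : ℝ) * U.card * hu' := by positivity
  calc _ ≤ ((n - 1).factorial : ℝ) * U.card * hu' * n := mul_le_mul_of_nonneg_left h4 h6
    _ = _ := by ring

end Pool.Agent.W2helper46.RL
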