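import Pool.Agent.W2helper46.RL.Mon

set_option autoImplicit false

/-!
# The hypersurfaces `χ ∈ U`, where `χ` is a primitive character and `U` is a finite set
-/

namespace Pool.Agent.W2helper46.RL

open Filter Topology

variable {n : ℕ}

/-- the hypersurface `χ ∈ U` -/
def level (v : Fin n → ℤ) (U : Finset Qbˣ) : Set (Torus n) := {x | mon v x ∈ U}

/-- the exponents of the monomials of the equation -/
noncomputable def lexp (v : Fin n → ℤ) (D s : ℕ) : Fin n →₀ ℕ :=
  Finsupp.equivFunOnFinite.symm fun i => s * (v i).toNat + (D - s) * (-v i).toNat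

/-- the equation of the hypersurface `P (χ) = 0` -/
noncomputable def leq (v : Fin n → ℤ) (P : Polynomial Qb) : MvPolynomial (Fin n) Qb :=
  ∑ s ∈ Finset.range (P.natDegree + 1), MvPolynomial.monomial (lexp v P.natDegree s) (P.coeff s)

lemma eval_leq (v : Fin n → ℤ) (P : Polynomial Qb) (x : Torus n) :
    MvPolynomial.eval (fun i => (x i : Qb)) (leq v P) =
      (chi (fun i => (-v i).toNat) x) ^ P.natDegree * P.eval ((mon v x : Qbˣ) : Qb) := by
  rw [leq, map_sum, Polynomial.eval_eq_sum_range, Finset.mul_sum]
  apply Finset.sum_congr rfl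
  intro s hs
  rw [Finset.mem_range] at hs
  rw [MvPolynomial.eval_monomial, Finsupp.prod_fintype _ _ (fun i => pow_zero _)]
  have h1 : (∏ i, (x i : Qb) ^ (lexp v P.natDegree s) i) =
      (chi (fun i => (-v i).toNat) x) ^ P.natDegree * ((mon v x : Qbˣ) : Qb) ^ s := by
    have h2 : (∏ i, (x i) ^ (lexp v P.natDegree s) i) =
        (∏ i, (x i) ^ ((-v i).toNat)) ^ P.natDegree * (mon v x) ^ s := by
      rw [mon_apply, ← Finset.prod_pow, ← Finset.prod_pow, ← Finset.prod_mul_distrib]
      apply Finset.prod_congr rfl
      intro i _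
      have e1 : (x i) ^ (lexp v P.natDegree s) i =
          (x i) ^ (((lexp v P.natDegree s) i : ℕ) : ℤ) := (zpow_natCast _ _).symm
      rw [e1, ← zpow_natCast (x i) ((-v i).toNat), ← zpow_natCast _ P.natDegree,
        ← zpow_natCast _ s, ← zpow_mul, ← zpow_mul, ← zpow_add]
      congr 1
      simp only [lexp, Finsupp.equivFunOnFinite_symm_apply_apply]
      push_cast [Nat.cast_sub (show s ≤ P.natDegree by omega)]
      rcases le_total 0 (v i) with h | h
      · rw [Int.toNat_of_nonneg h, Int.toNat_eq_zero.mpr (by omega : -v i ≤ 0)]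
        push_cast
        ring
      · rw [Int.toNat_eq_zero.mpr h, Int.toNat_of_nonneg (by omega : 0 ≤ -v i)]
        push_cast
        ring
    have h3 := congrArg Units.val h2
    push_cast at h3
    rw [h3, chi_apply]
  rw [h1]
  ring

lemma level_eq_zeros (v : Fin n → ℤ) (U : Finset Qbˣ) (P : Polynomial Qb)
    (hP : ∀ y : Qbˣ, y ∈ U ↔ P.eval (y : Qb) = 0) : level v U = zeros {leq v P} := by
  ext x
  constructor
  · intro hx f hf
    rw [Set.mem_singleton_iff] at hf
    rw [hf, eval_leq, (hP _).mp hx, mul_zero]
  · intro hx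
    have h := hx _ rfl
    rw [eval_leq] at h
    apply (hP _).mpr
    refine (mul_eq_zero.mp h).resolve_left (pow_ne_zero _ ?_)
    rw [chi_apply]
    exact Finset.prod_ne_zero_iff.mpr fun i _ => pow_ne_zero _ (x i).ne_zero

lemma level_definedOver (L : IntermediateField ℚ Qb) (v : Fin n → ℤ) (U : Finset Qbˣ)
    (P : Polynomial Qb) (hP : ∀ y : Qbˣ, y ∈ U ↔ P.eval (y : Qb) = 0)
    (hL : ∀ s, P.coeff s ∈ L) : IsDefinedOver L (level v U) := by
  refine ⟨{leq v P}, ?_, level_eq_zeros v U P hP⟩
  intro f hf m
  rw [Set.mem_singleton_iff] at hf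
  rw [hf, leq, MvPolynomial.coeff_sum]
  apply sum_mem
  intro s _
  rw [MvPolynomial.coeff_monomial]
  split_ifs
  · exact hL s
  · exact L.zero_mem

/-- the polynomial with the set of roots `U` -/
noncomputable def rpoly (U : Finset Qbˣ) : Polynomial Qb :=
  ∏ u ∈ U, (Polynomial.X - Polynomial.C (u : Qb))

lemma rpoly_eval (U : Finset Qbˣ) (y : Qbˣ) : y ∈ U ↔ (rpoly U).eval (y : Qb) = 0 := by
  rw [rpoly, Polynomial.eval_prod, Finset.prod_eq_zero_iff]
  constructor
  · intro h
    exact ⟨y, h, by simp⟩
  · rintro ⟨u, hu, h⟩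
    rw [Polynomial.eval_sub, Polynomial.eval_X, Polynomial.eval_C, sub_eq_zero] at h
    rw [Units.ext h]
    exact hu

lemma rpoly_monic (U : Finset Qbˣ) : (rpoly U).Monic :=
  Polynomial.monic_prod_of_monic _ _ fun _ _ => Polynomial.monic_X_sub_C _

lemma rpoly_natDegree (U : Finset Qbˣ) : (rpoly U).natDegree = U.card := by
  rw [rpoly, Polynomial.natDegree_prod_of_monic _ _ fun _ _ => Polynomial.monic_X_sub_C _]
  simp

lemma level_closed (v : Fin n → ℤ) (U : Finset Qbˣ) : IsZClosed (level v U) :=
  ⟨_, level_eq_zeros v U (rpoly U) (rpoly_eval U)⟩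

lemma level_singleton (v : Fin n → ℤ) (u : Qbˣ) : level v {u} = {x : Torus n | mon v x = u} := by
  ext x
  simp [level]

lemma level_singleton_irreducible (v w : Fin n → ℤ) (hvw : ∑ i, w i * v i = 1) (u : Qbˣ) :
    IsSubvariety (level v {u}) := by
  have h := level_closed v {u}
  rw [level_singleton] at h ⊢
  exact level_irreducible v w hvw u h

/-- a subvariety of `χ ∈ U` is contained in `χ = u` for some `u ∈ U` -/
lemma exists_level (v : Fin n → ℤ) (U : Finset Qbˣ) (W : Set (Torus n)) (hW : IsSubvariety W)
    (hWU : W ⊆ level v U) : ∃ u ∈ U, W ⊆ level v {u} := by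
  classical
  induction U using Finset.induction_on with
  | empty =>
    obtain ⟨x, hx⟩ := hW.2.1
    have := hWU hx
    simp [level] at this
  | insert a U ha ih =>
    have h1 : W ⊆ level v {a} ∪ level v U := by
      intro x hx
      have := hWU hx
      simp only [level, Finset.mem_insert, Set.mem_ofPred_eq] at this
      rcases this with h | h
      · left
        simp [level, h]
      · right
        exact h
    rcases hW.2.2 _ _ (level_closed v {a}) (level_closed v U) h1 with h | h
    · exact ⟨a, Finset.mem_insert_self _ _, h⟩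
    · obtain ⟨u, hu, h2⟩ := ih h
      exact ⟨u, Finset.mem_insert_of_mem hu, h2⟩

/-- the exponents between `0` and `k` -/
noncomputable def box (n k : ℕ) : Finset (Fin n → ℤ) := Fintype.piFinset fun _ => Finset.Icc 0 (k : ℤ)

lemma mem_box {k : ℕ} {m : Fin n → ℤ} : m ∈ box n k ↔ ∀ i, 0 ≤ m i ∧ m i ≤ k := by
  simp [box, Fintype.mem_piFinset]

lemma card_box (n k : ℕ) : (box n k).card = (k + 1) ^ n := by
  rw [box, Fintype.card_piFinset]
  simp

/-- the exponents in the box which leave it if `D v` is subtracted -/
noncomputable def edge (v : Fin n → ℤ) (D k : ℕ) : Finset (Fin n → ℤ) := by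
  classical
  exact (box n k).filter fun m => m - (D : ℤ) • v ∉ box n k

lemma mem_edge {v : Fin n → ℤ} {D k : ℕ} {m : Fin n → ℤ} :
    m ∈ edge v D k ↔ m ∈ box n k ∧ m - (D : ℤ) • v ∉ box n k := by
  simp [edge]

lemma card_edge (v : Fin n → ℤ) (D k : ℕ) (hk : ∀ i, D * |v i| ≤ k) :
    ((edge v D k).card : ℝ) = ((k : ℝ) + 1) ^ n - ∏ i, ((k : ℝ) + 1 - D * |(v i : ℝ)|) := by
  classical
  have h1 : (edge v D k).card + ((box n k).filter fun m => m - (D : ℤ) • v ∈ box n k).card =
      (box n k).card := by
    have := Finset.card_filter_add_card_filter_not (s := box n k)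
      (fun m => m - (D : ℤ) • v ∈ box n k)
    rw [add_comm]
    exact this
  have h2 : ((box n k).filter fun m => m - (D : ℤ) • v ∈ box n k) =
      Fintype.piFinset fun i => Finset.Icc (max 0 (D * v i)) (min (k : ℤ) (k + D * v i)) := by
    ext m
    simp only [Finset.mem_filter, mem_box, Fintype.mem_piFinset, Finset.mem_Icc, Pi.sub_apply,
      Pi.smul_apply, smul_eq_mul, max_le_iff, le_min_iff]
    constructor
    · rintro ⟨h3, h4⟩ i
      have := h3 i
      have := h4 i
      omega
    · intro h
      refine ⟨fun i => ?_, fun i => ?_⟩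
      · have := h i
        omega
      · have := h i
        omega
  have h3 : (((box n k).filter fun m => m - (D : ℤ) • v ∈ box n k).card : ℝ) =
      ∏ i, ((k : ℝ) + 1 - D * |(v i : ℝ)|) := by
    rw [h2, Fintype.card_piFinset]
    push_cast
    apply Finset.prod_congr rfl
    intro i _
    rw [Int.card_Icc]
    have h4 : ((min (k : ℤ) (k + D * v i) + 1 - max 0 (D * v i)).toNat : ℤ) =
        k + 1 - D * |v i| := by
      have := hk i
      rcases le_total 0 (v i) with h | h
      · have h5 : 0 ≤ (D : ℤ) * v i := by positivity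
        rw [abs_of_nonneg h] at this ⊢
        rw [min_eq_left (by omega), max_eq_right (by omega), Int.toNat_of_nonneg (by omega)]
      · have h5 : (D : ℤ) * v i ≤ 0 := mul_nonpos_of_nonneg_of_nonpos (by positivity) h
        rw [abs_of_nonpos h] at this ⊢
        rw [mul_neg] at this ⊢
        rw [min_eq_right (by omega), max_eq_left (by omega), Int.toNat_of_nonneg (by omega)]
        ring
    have h6 := congrArg (Int.cast : ℤ → ℝ) h4
    push_cast at h6
    exact_mod_cast h6
  rw [← h3]
  have h4 := congrArg (Nat.cast : ℕ → ℝ) h1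
  rw [card_box] at h4
  push_cast at h4
  linarith

/-- the restriction of a Laurent monomial to the hypersurface -/
noncomputable def mono (v : Fin n → ℤ) (U : Finset Qbˣ) (m : Fin n → ℤ) : level v U → Qb :=
  fun x => ((mon m x.1 : Qbˣ) : Qb)

lemma mono_relation (v : Fin n → ℤ) (U : Finset Qbˣ) (m : Fin n → ℤ) :
    mono v U m = - ∑ s ∈ Finset.range U.card,
      (rpoly U).coeff s • mono v U (m - ((U.card - s : ℕ) : ℤ) • v) := by
  funext x
  rw [Pi.neg_apply, Finset.sum_apply]
  have h1 : (rpoly U).eval ((mon v x.1 : Qbˣ) : Qb) = 0 := (rpoly_eval U _).mp x.2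
  rw [Polynomial.eval_eq_sum_range, rpoly_natDegree, Finset.sum_range_succ] at h1
  have h2 : (rpoly U).coeff U.card = 1 := by
    rw [← rpoly_natDegree]
    exact rpoly_monic U
  rw [h2, one_mul] at h1
  set y : Qb := ((mon v x.1 : Qbˣ) : Qb) with hy
  have hy0 : y ≠ 0 := (mon v x.1).ne_zero
  have h3 : ∀ s ∈ Finset.range U.card,
      ((rpoly U).coeff s • mono v U (m - ((U.card - s : ℕ) : ℤ) • v)) x =
        (mono v U m x * (y ^ U.card)⁻¹) * ((rpoly U).coeff s * y ^ s) := by
    intro s hs
    rw [Finset.mem_range] at hs
    rw [Pi.smul_apply, smul_eq_mul, mono, mono, mon_sub, mon_smul, zpow_natCast]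
    push_cast
    rw [← hy]
    have : y ^ U.card = y ^ (U.card - s) * y ^ s := by
      rw [← pow_add]
      congr 1
      omega
    rw [this]
    field_simp
  rw [Finset.sum_congr rfl h3, ← Finset.mul_sum, eq_neg_of_add_eq_zero_left h1]
  field_simp

lemma restr_level (v : Fin n → ℤ) (U : Finset Qbˣ) (hv : v ≠ 0) (k : ℕ) :
    restr (level v U) k =
      Submodule.span Qb (Set.range fun m : edge v U.card k => mono v U m.1) := by
  apply le_antisymm
  · have key : ∀ N : ℕ, ∀ m ∈ box n k,
        (∑ i, m i * v i + k * ∑ i, |v i|).toNat = N → mono v U m ∈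
          Submodule.span Qb (Set.range fun m : edge v U.card k => mono v U m.1) := by
      intro N
      induction N using Nat.strong_induction_on with
      | _ N ih =>
        intro m hm hN
        by_cases hE : m ∈ edge v U.card k
        · exact Submodule.subset_span ⟨⟨m, hE⟩, rfl⟩
        · rw [mem_edge, not_and, not_not] at hE
          have hE' := hE hm
          rw [mono_relation]
          apply Submodule.neg_mem
          apply Submodule.sum_mem
          intro s hs
          rw [Finset.mem_range] at hs
          apply Submodule.smul_mem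
          have hbox : m - ((U.card - s : ℕ) : ℤ) • v ∈ box n k := by
            rw [mem_box] at hm hE' ⊢
            intro i
            have h1 := hm i
            have h2 := hE' i
            simp only [Pi.sub_apply, Pi.smul_apply, smul_eq_mul] at h2 ⊢
            have h3 : ((U.card - s : ℕ) : ℤ) ≤ (U.card : ℤ) := by omega
            have h4 : (0 : ℤ) ≤ ((U.card - s : ℕ) : ℤ) := by positivity
            rcases le_total 0 (v i) with h | h
            · have h5 := mul_le_mul_of_nonneg_right h3 h
              have h6 := mul_nonneg h4 h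
              constructor <;> linarith
            · have h5 := mul_le_mul_of_nonpos_right h3 h
              have h6 := mul_nonpos_of_nonneg_of_nonpos h4 h
              constructor <;> linarith
          refine ih _ ?_ _ hbox rfl
          -- the measure decreases
          have hpos : ∀ m' ∈ box n k, 0 ≤ ∑ i, m' i * v i + k * ∑ i, |v i| := by
            intro m' hm'
            rw [mem_box] at hm'
            rw [Finset.mul_sum, ← Finset.sum_add_distrib]
            apply Finset.sum_nonneg
            intro i _
            obtain ⟨a1, a2⟩ := hm' i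
            rcases le_total 0 (v i) with h | h
            · rw [abs_of_nonneg h]
              positivity
            · rw [abs_of_nonpos h]
              nlinarith
          have h1 := hpos m hm
          have h2 := hpos _ hbox
          have h3 : ∑ i, (m - ((U.card - s : ℕ) : ℤ) • v) i * v i =
              ∑ i, m i * v i - ((U.card - s : ℕ) : ℤ) * ∑ i, v i * v i := by
            rw [Finset.mul_sum, ← Finset.sum_sub_distrib]
            apply Finset.sum_congr rfl
            intro i _
            simp only [Pi.sub_apply, Pi.smul_apply, smul_eq_mul]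
            ring
          have h4 : 0 < ∑ i, v i * v i := by
            obtain ⟨j, hj⟩ := Function.ne_iff.mp hv
            apply Finset.sum_pos'
            · intro i _
              exact mul_self_nonneg _
            · exact ⟨j, Finset.mem_univ j, mul_self_pos.mpr hj⟩
          have h5 : 0 < ((U.card - s : ℕ) : ℤ) * ∑ i, v i * v i := by
            apply mul_pos _ h4
            omega
          rw [← hN]
          omega
    rw [restr, Submodule.span_le]
    rintro F ⟨m, hm, rfl⟩
    have h1 : (fun x : level v U => ∏ i, (x.1 i : Qb) ^ m i) =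
        mono v U (fun i => (m i : ℤ)) := by
      funext x
      rw [mono, mon_nat, chi_apply]
    rw [SetLike.mem_coe, h1]
    refine key _ _ ?_ rfl
    rw [mem_box]
    intro i
    have := hm i
    omega
  · rw [Submodule.span_le]
    rintro F ⟨m, rfl⟩
    have hm := mem_box.mp (mem_edge.mp m.2).1
    refine Submodule.subset_span ⟨fun i => (m.1 i).toNat, fun i => ?_, ?_⟩
    · have := hm i
      show (m.1 i).toNat ≤ k
      omega
    · funext x
      have h1 : m.1 = fun i => (((m.1 i).toNat : ℕ) : ℤ) := by
        funext i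
        have := hm i
        omega
      show ((mon m.1 x.1 : Qbˣ) : Qb) = _
      conv_lhs => rw [h1]
      rw [mon_nat, chi_apply]

end Pool.Agent.W2helper46.RL
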