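import Pool.Agent.W2helper46.RL.Char

set_option autoImplicit false

/-!
# The characters of the torus, and the retractions onto the kernels of the primitive characters
-/

namespace Pool.Agent.W2helper46.RL

open MvPolynomial

variable {n : ℕ}

/-- the character of the torus with the exponents `v` -/
noncomputable def mon (v : Fin n → ℤ) : Torus n →* Qbˣ where
  toFun x := ∏ i, x i ^ v i
  map_one' := by simp
  map_mul' x y := by
    rw [← Finset.prod_mul_distrib]
    exact Finset.prod_congr rfl fun i _ => by simp [mul_zpow]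

lemma mon_apply (v : Fin n → ℤ) (x : Torus n) : mon v x = ∏ i, x i ^ v i := rfl

lemma mon_zero (x : Torus n) : mon 0 x = 1 := by simp [mon_apply]

lemma mon_add (a b : Fin n → ℤ) (x : Torus n) : mon (a + b) x = mon a x * mon b x := by
  simp only [mon_apply, Pi.add_apply, zpow_add, Finset.prod_mul_distrib]

lemma mon_neg (a : Fin n → ℤ) (x : Torus n) : mon (-a) x = (mon a x)⁻¹ := by
  simp only [mon_apply, Pi.neg_apply, zpow_neg, Finset.prod_inv_distrib]

lemma mon_sub (a b : Fin n → ℤ) (x : Torus n) : mon (a - b) x = mon a x * (mon b x)⁻¹ := by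
  rw [sub_eq_add_neg, mon_add, mon_neg]

lemma mon_smul (k : ℤ) (a : Fin n → ℤ) (x : Torus n) : mon (k • a) x = (mon a x) ^ k := by
  simp only [mon_apply, Pi.smul_apply, smul_eq_mul]
  rw [← Finset.prod_zpow]
  exact Finset.prod_congr rfl fun i _ => by rw [mul_comm, zpow_mul]

lemma mon_single (a : Fin n → ℤ) (i : Fin n) (u : Qbˣ) : mon a (Pi.mulSingle i u) = u ^ a i := by
  rw [mon_apply, Finset.prod_eq_single i]
  · simp
  · intro j _ hj
    simp [Pi.mulSingle_eq_of_ne hj]
  · simp

lemma mon_nat (m : Fin n → ℕ) (x : Torus n) :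
    ((mon (fun i => (m i : ℤ)) x : Qbˣ) : Qb) = chi m x := by
  rw [mon_apply, chi_apply]
  push_cast
  exact Finset.prod_congr rfl fun i _ => zpow_natCast _ _

lemma zpow_sum' {ι : Type*} (s : Finset ι) (f : ι → ℤ) (a : Qbˣ) :
    a ^ (∑ i ∈ s, f i) = ∏ i ∈ s, a ^ f i := by
  classical
  induction s using Finset.induction_on with
  | empty => simp
  | insert i s hi ih => rw [Finset.sum_insert hi, Finset.prod_insert hi, zpow_add, ih]

lemma two_zpow_inj {a b : ℤ} (h : two ^ a = two ^ b) : a = b := by
  by_contra hne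
  have key : ∀ c : ℕ, two ^ c = 1 → c = 0 := by
    intro c hc
    have h1 : (2 : Qb) ^ c = 2 ^ 0 := by
      have := congrArg Units.val hc
      simpa [two_val] using this
    exact two_pow_inj h1
  have h2 : two ^ (a - b) = 1 := by rw [zpow_sub, h, mul_inv_cancel]
  obtain ⟨c, hc | hc⟩ := (a - b).eq_nat_or_neg
  · rw [hc, zpow_natCast] at h2
    have := key c h2
    omega
  · rw [hc, zpow_neg, zpow_natCast, inv_eq_one] at h2
    have := key c h2
    omega

lemma mon_injective : Function.Injective (mon : (Fin n → ℤ) → Torus n →* Qbˣ) := by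
  intro a b h
  funext i
  have h1 := DFunLike.congr_fun h (Pi.mulSingle i two)
  rw [mon_single, mon_single] at h1
  exact two_zpow_inj h1

/-- the character with values in the field -/
noncomputable def monF (v : Fin n → ℤ) : Torus n →* Qb := (Units.coeHom Qb).comp (mon v)

lemma monF_apply (v : Fin n → ℤ) (x : Torus n) : monF v x = ((mon v x : Qbˣ) : Qb) := rfl

lemma monF_injective : Function.Injective (monF : (Fin n → ℤ) → Torus n →* Qb) := by
  intro a b h
  apply mon_injective
  refine MonoidHom.ext fun x => Units.ext ?_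
  exact DFunLike.congr_fun h x

lemma monF_linearIndependent :
    LinearIndependent Qb (fun v : Fin n → ℤ => (⇑(monF v) : Torus n → Qb)) :=
  (linearIndependent_monoidHom (Torus n) Qb).comp _ monF_injective

/-- the map `t ↦ t χ(t)^{-w} u^w`, a retraction of the torus onto the hypersurface `χ = u` if the
scalar product of `w` and the exponents `v` of `χ` is `1` -/
noncomputable def retr (v w : Fin n → ℤ) (u : Qbˣ) (t : Torus n) : Torus n :=
  fun i => t i * (mon v t) ^ (-(w i)) * u ^ (w i)

lemma mon_retr (v w : Fin n → ℤ) (u : Qbˣ) (t : Torus n) (a : Fin n → ℤ) :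
    mon a (retr v w u t) =
      mon (a - (∑ i, w i * a i) • v) t * u ^ (∑ i, w i * a i) := by
  rw [mon_sub, mon_smul, ← zpow_neg]
  simp only [mon_apply a, retr, mul_zpow, Finset.prod_mul_distrib]
  congr 1
  · congr 1
    rw [← Finset.sum_neg_distrib, zpow_sum']
    apply Finset.prod_congr rfl
    intro i _
    rw [← zpow_mul, neg_mul]
  · rw [zpow_sum']
    apply Finset.prod_congr rfl
    intro i _
    rw [← zpow_mul]

lemma mon_retr_self (v w : Fin n → ℤ) (hvw : ∑ i, w i * v i = 1) (u : Qbˣ) (t : Torus n) :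
    mon v (retr v w u t) = u := by
  rw [mon_retr, hvw, one_smul, sub_self, mon_zero, one_mul, zpow_one]

lemma retr_self (v w : Fin n → ℤ) (u : Qbˣ) (t : Torus n) (h : mon v t = u) :
    retr v w u t = t := by
  funext i
  rw [retr, h, mul_assoc, ← zpow_add, neg_add_cancel, zpow_zero, mul_one]

/-- the functions on the torus which are given by Laurent polynomials -/
def IsLaurent (F : Torus n → Qb) : Prop :=
  ∃ (p : MvPolynomial (Fin n) Qb) (N : ℕ),
    ∀ t, F t * (∏ i, (t i : Qb)) ^ N = eval (fun i => (t i : Qb)) p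

lemma prod_ne_zero' (t : Torus n) : (∏ i, (t i : Qb)) ≠ 0 :=
  Finset.prod_ne_zero_iff.mpr fun i _ => (t i).ne_zero

lemma isLaurent_const (a : Qb) : IsLaurent (fun _ : Torus n => a) := ⟨C a, 0, fun t => by simp⟩

lemma isLaurent_mul {F G : Torus n → Qb} (hF : IsLaurent F) (hG : IsLaurent G) :
    IsLaurent (fun t => F t * G t) := by
  obtain ⟨p, N, hp⟩ := hF
  obtain ⟨q, M, hq⟩ := hG
  refine ⟨p * q, N + M, fun t => ?_⟩
  rw [map_mul, ← hp, ← hq, pow_add]
  ring

lemma isLaurent_add {F G : Torus n → Qb} (hF : IsLaurent F) (hG : IsLaurent G) :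
    IsLaurent (fun t => F t + G t) := by
  obtain ⟨p, N, hp⟩ := hF
  obtain ⟨q, M, hq⟩ := hG
  refine ⟨p * (∏ i, X i) ^ M + q * (∏ i, X i) ^ N, N + M, fun t => ?_⟩
  rw [map_add, map_mul, map_mul, ← hp, ← hq, pow_add]
  simp only [map_pow, map_prod, eval_X]
  ring

lemma isLaurent_coord (i : Fin n) : IsLaurent (fun t : Torus n => (t i : Qb)) :=
  ⟨X i, 0, fun t => by simp⟩

lemma isLaurent_coord_inv (i : Fin n) : IsLaurent (fun t : Torus n => ((t i)⁻¹ : Qbˣ) : Torus n → Qb) := by
  refine ⟨∏ j ∈ Finset.univ.erase i, X j, 1, fun t => ?_⟩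
  rw [pow_one, map_prod, ← Finset.mul_prod_erase Finset.univ (fun j => (t j : Qb))
    (Finset.mem_univ i), ← mul_assoc]
  simp

lemma isLaurent_pow {F : Torus n → Qb} (hF : IsLaurent F) (k : ℕ) :
    IsLaurent (fun t => F t ^ k) := by
  induction k with
  | zero => simpa using isLaurent_const (n := n) 1
  | succ k ih =>
    simp only [pow_succ]
    exact isLaurent_mul ih hF

lemma isLaurent_prod {ι : Type*} (s : Finset ι) (F : ι → Torus n → Qb)
    (hF : ∀ i, IsLaurent (F i)) : IsLaurent (fun t => ∏ i ∈ s, F i t) := by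
  classical
  induction s using Finset.induction_on with
  | empty => simpa using isLaurent_const (n := n) 1
  | insert i s hi ih =>
    simp only [Finset.prod_insert hi]
    exact isLaurent_mul (hF i) ih

lemma isLaurent_zpow_coord (i : Fin n) (k : ℤ) :
    IsLaurent (fun t : Torus n => ((t i ^ k : Qbˣ) : Qb)) := by
  obtain ⟨c, rfl | rfl⟩ := k.eq_nat_or_neg
  · simpa using isLaurent_pow (isLaurent_coord i) c
  · have := isLaurent_pow (isLaurent_coord_inv i) c
    simpa using this

lemma isLaurent_mon (v : Fin n → ℤ) : IsLaurent (fun t : Torus n => ((mon v t : Qbˣ) : Qb)) := by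
  have := isLaurent_prod Finset.univ (fun (i : Fin n) (t : Torus n) => ((t i ^ v i : Qbˣ) : Qb))
    (fun i => isLaurent_zpow_coord i (v i))
  convert this using 2 with t
  rw [mon_apply]
  push_cast
  rfl

lemma isLaurent_retr (v w : Fin n → ℤ) (u : Qbˣ) (i : Fin n) :
    IsLaurent (fun t : Torus n => ((retr v w u t i : Qbˣ) : Qb)) := by
  have h1 : IsLaurent (fun t : Torus n => (((mon v t) ^ (-(w i)) : Qbˣ) : Qb)) := by
    have := isLaurent_mon (n := n) ((-(w i)) • v)
    convert this using 2 with t
    rw [mon_smul]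
  exact isLaurent_mul (isLaurent_mul (isLaurent_coord i) h1)
    (isLaurent_const (n := n) ((u ^ (w i) : Qbˣ) : Qb))

lemma isLaurent_eval (y : Torus n → Torus n) (hy : ∀ i, IsLaurent (fun t => (y t i : Qb)))
    (f : MvPolynomial (Fin n) Qb) : IsLaurent (fun t => eval (fun i => (y t i : Qb)) f) := by
  induction f using MvPolynomial.induction_on with
  | C a => simpa using isLaurent_const (n := n) a
  | add p q hp hq =>
    simp only [map_add]
    exact isLaurent_add hp hq
  | mul_X p i hp =>
    simp only [map_mul, eval_X]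
    exact isLaurent_mul hp (hy i)

lemma laurent_domain {F G : Torus n → Qb} (hF : IsLaurent F) (hG : IsLaurent G)
    (h : ∀ t, F t * G t = 0) : (∀ t, F t = 0) ∨ ∀ t, G t = 0 := by
  obtain ⟨p, N, hp⟩ := hF
  obtain ⟨q, M, hq⟩ := hG
  have h0 : p * q = 0 := by
    apply eq_zero_of_forall
    intro t
    rw [map_mul, ← hp, ← hq]
    have := h t
    calc _ = (F t * G t) * ((∏ i, (t i : Qb)) ^ N * (∏ i, (t i : Qb)) ^ M) := by ring
      _ = 0 := by rw [this, zero_mul]
  rcases mul_eq_zero.mp h0 with h1 | h1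
  · left
    intro t
    have := hp t
    rw [h1, map_zero] at this
    exact (mul_eq_zero.mp this).resolve_right (pow_ne_zero _ (prod_ne_zero' t))
  · right
    intro t
    have := hq t
    rw [h1, map_zero] at this
    exact (mul_eq_zero.mp this).resolve_right (pow_ne_zero _ (prod_ne_zero' t))

/-- the level sets of the primitive characters are irreducible -/
lemma level_irreducible (v w : Fin n → ℤ) (hvw : ∑ i, w i * v i = 1) (u : Qbˣ)
    (hcl : IsZClosed {x : Torus n | mon v x = u}) :
    IsSubvariety {x : Torus n | mon v x = u} := by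
  refine ⟨hcl, ⟨retr v w u 1, mon_retr_self v w hvw u 1⟩, ?_⟩
  rintro A B ⟨S, rfl⟩ ⟨T, rfl⟩ hAB
  by_contra hcon
  push Not at hcon
  obtain ⟨hA, hB⟩ := hcon
  rw [Set.not_subset] at hA hB
  obtain ⟨a, ha, haS⟩ := hA
  obtain ⟨b, hb, hbT⟩ := hB
  have h1 : ∃ f ∈ S, eval (fun i => (a i : Qb)) f ≠ 0 := by
    by_contra hc
    push Not at hc
    exact haS hc
  have h2 : ∃ g ∈ T, eval (fun i => (b i : Qb)) g ≠ 0 := by
    by_contra hc
    push Not at hc
    exact hbT hc
  obtain ⟨f, hf, hfa⟩ := h1
  obtain ⟨g, hg, hgb⟩ := h2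
  have key : ∀ t : Torus n, eval (fun i => ((retr v w u t) i : Qb)) f *
      eval (fun i => ((retr v w u t) i : Qb)) g = 0 := by
    intro t
    have hx : retr v w u t ∈ {x : Torus n | mon v x = u} := mon_retr_self v w hvw u t
    rcases hAB hx with h | h
    · rw [h f hf, zero_mul]
    · rw [h g hg, mul_zero]
  rcases laurent_domain (isLaurent_eval _ (isLaurent_retr v w u) f)
    (isLaurent_eval _ (isLaurent_retr v w u) g) key with h | h
  · apply hfa
    have := h a
    rwa [retr_self v w u a ha] at this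
  · apply hgb
    have := h b
    rwa [retr_self v w u b hb] at this

end Pool.Agent.W2helper46.RL
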