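import Pool.Agent.W2helper46.RL.Deg
import Pool.Agent.W2helper46.RL.Indep
import Pool.Agent.H58R.Loc

set_option autoImplicit false

/-!
# Points, heights and conjugates
-/

namespace Pool.Agent.W2helper46.RL

open Filter Topology

variable {n : ℕ}

lemma absLog_eq (x : Qb) : NumberField.absLogHeight₁ x = Pool.Agent.H58P.ht x :=
  Pool.Agent.H58P.absLogHeight₁_eq x

lemma h_nonneg (x : Qbˣ) : 0 ≤ NumberField.absLogHeight₁ (x : Qb) := by
  rw [absLog_eq]
  exact Pool.Agent.H58R.ht_nonneg _

lemma h_mul_le (x y : Qbˣ) : NumberField.absLogHeight₁ ((x * y : Qbˣ) : Qb) ≤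
    NumberField.absLogHeight₁ (x : Qb) + NumberField.absLogHeight₁ (y : Qb) := by
  rw [absLog_eq, absLog_eq, absLog_eq]
  push_cast
  exact Pool.Agent.H58R.ht_mul_le _ _

lemma h_zpow (x : Qbˣ) (m : ℤ) : NumberField.absLogHeight₁ ((x ^ m : Qbˣ) : Qb) =
    |(m : ℝ)| * NumberField.absLogHeight₁ (x : Qb) := by
  rw [absLog_eq, absLog_eq]
  push_cast
  exact Pool.Agent.H58R.ht_zpow _ x.ne_zero m

lemma h_pow (x : Qbˣ) (m : ℕ) : NumberField.absLogHeight₁ ((x ^ m : Qbˣ) : Qb) =
    (m : ℝ) * NumberField.absLogHeight₁ (x : Qb) := by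
  have := h_zpow x m
  simpa using this

lemma h_prod_le {ι : Type*} (s : Finset ι) (f : ι → Qbˣ) :
    NumberField.absLogHeight₁ ((∏ i ∈ s, f i : Qbˣ) : Qb) ≤
      ∑ i ∈ s, NumberField.absLogHeight₁ (f i : Qb) := by
  simp only [absLog_eq]
  push_cast
  exact Pool.Agent.H58R.ht_prod_le _ _

lemma hG_nonneg (x : Torus n) : 0 ≤ hG x := Finset.sum_nonneg fun i _ => h_nonneg (x i)

lemma empty_closed : IsZClosed (∅ : Set (Torus n)) := by
  refine ⟨{1}, ?_⟩
  ext x
  simp [zeros]

lemma singleton_closed (P : Torus n) : IsZClosed ({P} : Set (Torus n)) := by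
  refine ⟨Set.range fun i => MvPolynomial.X i - MvPolynomial.C (P i : Qb), ?_⟩
  ext x
  simp only [Set.mem_singleton_iff, zeros, Set.mem_ofPred_eq, Set.forall_mem_range, map_sub,
    MvPolynomial.eval_X, MvPolynomial.eval_C, sub_eq_zero]
  constructor
  · rintro rfl i
    rfl
  · intro h
    funext i
    exact Units.ext (h i)

lemma singleton_subvariety (P : Torus n) : IsSubvariety ({P} : Set (Torus n)) := by
  refine ⟨singleton_closed P, Set.singleton_nonempty P, ?_⟩
  intro A B _ _ h
  rcases h (Set.mem_singleton P) with h | h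
  · left
    simpa using h
  · right
    simpa using h

lemma essMin_singleton (P : Torus n) : essMin ({P} : Set (Torus n)) = hG P := by
  have h : {θ : ℝ | ∀ A : Set (Torus n), IsZClosed A →
      {x | x ∈ ({P} : Set (Torus n)) ∧ hG x ≤ θ} ⊆ A → ({P} : Set (Torus n)) ⊆ A} =
      Set.Ici (hG P) := by
    ext θ
    rw [Set.mem_Ici]
    constructor
    · intro h
      by_contra hcon
      have := h ∅ empty_closed (by
        rintro x ⟨hx, hx2⟩
        rw [Set.mem_singleton_iff] at hx
        rw [hx] at hx2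
        exact absurd hx2 hcon)
      exact this (Set.mem_singleton P)
    · intro h A _ hA x hx
      apply hA
      refine ⟨hx, ?_⟩
      rw [Set.mem_singleton_iff] at hx
      rw [hx]
      exact h
  rw [essMin, h, csInf_Ici]

/-- the conjugates of `u` over `L` -/
lemma exists_conj (L : IntermediateField ℚ Qb) (u : Qbˣ) :
    ∃ U : Finset Qbˣ, u ∈ U ∧ U.card = (minpoly L (u : Qb)).natDegree ∧
      ∀ v : Fin n → ℤ, IsDefinedOver L (level v U) := by
  classical
  have hint : IsIntegral L (u : Qb) := (Algebra.IsAlgebraic.isAlgebraic (R := L) (u : Qb)).isIntegral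
  set P : Polynomial Qb := (minpoly L (u : Qb)).map (algebraMap L Qb) with hP
  have hP0 : P ≠ 0 := (Polynomial.map_ne_zero_iff (algebraMap L Qb).injective).mpr
    (minpoly.ne_zero hint)
  have h0 : P.eval 0 ≠ 0 := by
    rw [← Polynomial.coeff_zero_eq_eval_zero, hP, Polynomial.coeff_map]
    intro h
    have h1 : (minpoly L (u : Qb)).coeff 0 = 0 := by
      apply (algebraMap L Qb).injective
      rw [h, map_zero]
    exact u.ne_zero ((minpoly.coeff_zero_eq_zero hint).mp h1)
  have hinj : Set.InjOn (Units.val : Qbˣ → Qb) (Units.val ⁻¹' (P.roots.toFinset : Set Qb)) :=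
    Units.val_injective.injOn
  set U : Finset Qbˣ := P.roots.toFinset.preimage Units.val hinj with hU
  have hmem : ∀ y : Qbˣ, y ∈ U ↔ P.eval (y : Qb) = 0 := by
    intro y
    rw [hU, Finset.mem_preimage, Multiset.mem_toFinset, Polynomial.mem_roots hP0,
      Polynomial.IsRoot.def]
  refine ⟨U, ?_, ?_, ?_⟩
  · rw [hmem, hP, Polynomial.eval_map, ← Polynomial.aeval_def, minpoly.aeval]
  · have h1 : U.image Units.val = P.roots.toFinset := by
      ext y
      rw [Finset.mem_image, Multiset.mem_toFinset, Polynomial.mem_roots hP0, Polynomial.IsRoot.def]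
      constructor
      · rintro ⟨z, hz, rfl⟩
        exact (hmem z).mp hz
      · intro hy
        have hy0 : y ≠ 0 := by
          rintro rfl
          exact h0 hy
        exact ⟨Units.mk0 y hy0, (hmem _).mpr hy, rfl⟩
    rw [← Finset.card_image_of_injective U Units.val_injective, h1]
    have hsep : (minpoly L (u : Qb)).Separable := (minpoly.irreducible hint).separable
    have h2 := Polynomial.card_rootSet_eq_natDegree (K := Qb) hsep
      (IsAlgClosed.splits _)
    rw [← h2]
    simp_rw [Polynomial.rootSet_def, Finset.coe_sort_coe, Fintype.card_coe]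
    rfl
  · intro v
    refine level_definedOver L v U P hmem ?_
    intro s
    rw [hP, Polynomial.coeff_map]
    exact ((minpoly L (u : Qb)).coeff s).2

end Pool.Agent.W2helper46.RL
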